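import Mathlib

/-!
Boolean-valued names, ultrafilters on a Boolean algebra and the quotient models.
-/

namespace Pool.Agent.Lib.MP_5d9fac_lc

universe u v

/-- Ultrafilters on a Boolean algebra. -/
structure Ult (B : Type u) [BooleanAlgebra B] where
  In : B → Prop
  top : In ⊤
  not_bot : ¬ In ⊥
  mono : ∀ {a b}, a ≤ b → In a → In b
  inf : ∀ {a b}, In a → In b → In (a ⊓ b)
  em : ∀ a, In a ∨ In aᶜ

namespace Ult

section BA
variable {B : Type u} [BooleanAlgebra B] (U : Ult B)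

theorem inf_iff {a b : B} : U.In (a ⊓ b) ↔ U.In a ∧ U.In b :=
  ⟨fun h => ⟨U.mono inf_le_left h, U.mono inf_le_right h⟩, fun h => U.inf h.1 h.2⟩

theorem compl_iff {a : B} : U.In aᶜ ↔ ¬ U.In a := by
  constructor
  · intro h ha
    have := U.inf ha h
    rw [inf_compl_eq_bot] at this
    exact U.not_bot this
  · intro h
    exact (U.em a).resolve_left h

theorem sup_iff {a b : B} : U.In (a ⊔ b) ↔ U.In a ∨ U.In b := by
  constructor
  · intro h
    by_contra hc
    push Not at hc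
    have := U.inf (U.compl_iff.2 hc.1) (U.compl_iff.2 hc.2)
    rw [← compl_sup] at this
    exact U.compl_iff.1 this h
  · rintro (h | h)
    · exact U.mono le_sup_left h
    · exact U.mono le_sup_right h

theorem himp_iff {a b : B} : U.In (a ⇨ b) ↔ (U.In a → U.In b) := by
  rw [himp_eq, sup_iff, compl_iff]
  tauto

theorem ne_bot {a : B} (h : U.In a) : a ≠ ⊥ := by
  rintro rfl
  exact U.not_bot h

theorem exists_of_ne_bot {p : B} (hp : p ≠ ⊥) : ∃ U : Ult B, U.In p := by
  have hprop : (Order.Ideal.principal pᶜ).IsProper := by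
    apply Order.Ideal.isProper_of_notMem (p := ⊤)
    simpa using hp
  obtain ⟨J, hJ, hmax⟩ := hprop.exists_le_maximal
  have hprime : J.IsPrime := inferInstance
  refine ⟨⟨fun a => aᶜ ∈ J, ?_, ?_, ?_, ?_, ?_⟩, ?_⟩
  · simp
  · simpa using hprime.toIsProper.top_notMem
  · intro a b hab ha
    exact J.lower (compl_le_compl hab) ha
  · intro a b ha hb
    rw [compl_inf]
    exact Order.Ideal.sup_mem ha hb
  · intro a
    exact hprime.mem_or_compl_mem
  · exact hJ (by simp)

theorem le_of {a b : B} (h : ∀ U : Ult B, U.In a → U.In b) : a ≤ b := by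
  by_contra hab
  have : a ⊓ bᶜ ≠ ⊥ := by
    intro h0
    apply hab
    rwa [← sdiff_eq, sdiff_eq_bot_iff] at h0
  obtain ⟨U, hU⟩ := exists_of_ne_bot this
  rw [inf_iff, compl_iff] at hU
  exact hU.2 (h U hU.1)

theorem eq_bot_of {a : B} (h : ∀ U : Ult B, ¬ U.In a) : a = ⊥ :=
  le_bot_iff.1 (le_of fun U hU => (h U hU).elim)

theorem eq_top_of {a : B} (h : ∀ U : Ult B, U.In a) : a = ⊤ :=
  top_le_iff.1 (le_of fun U _ => h U)

end BA

section CBA
variable {B : Type u} [CompleteBooleanAlgebra B] (U : Ult B)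

theorem iInf_elim {ι : Sort v} {f : ι → B} (h : U.In (⨅ i, f i)) (i : ι) : U.In (f i) :=
  U.mono (iInf_le f i) h

theorem iSup_intro {ι : Sort v} {f : ι → B} (i : ι) (h : U.In (f i)) : U.In (⨆ i, f i) :=
  U.mono (le_iSup f i) h

/-- Elimination of a supremum below a condition. -/
theorem iSup_elim {ι : Sort v} {f : ι → B} {p c : B} (h : U.In (⨆ i, f i)) (hp : U.In p)
    (H : ∀ i (W : Ult B), W.In p → W.In (f i) → W.In c) : U.In c := by
  have : p ⊓ (⨆ i, f i) ≤ c := by
    rw [inf_iSup_eq]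
    refine iSup_le fun i => le_of fun W hW => ?_
    rw [inf_iff] at hW
    exact H i W hW.1 hW.2
  exact U.mono this (U.inf hp h)

/-- Introduction of an infimum below a condition. -/
theorem iInf_intro {ι : Sort v} {f : ι → B} {p : B} (hp : U.In p)
    (H : ∀ i (W : Ult B), W.In p → W.In (f i)) : U.In (⨅ i, f i) :=
  U.mono (le_iInf fun i => le_of (H i)) hp

theorem exists_iSup {ι : Sort v} {f : ι → B} {p : B} (h : U.In (⨆ i, f i)) (hp : U.In p) :
    ∃ i, ∃ W : Ult B, W.In p ∧ W.In (f i) := by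
  by_contra hc
  push Not at hc
  exact U.not_bot (U.iSup_elim h hp fun i W h1 h2 => (hc i W h1 h2).elim)

theorem iSup_finite {ι : Type v} [Finite ι] {f : ι → B} (h : U.In (⨆ i, f i)) :
    ∃ i, U.In (f i) := by
  classical
  have := Fintype.ofFinite ι
  have key : ∀ s : Finset ι, U.In (s.sup f) → ∃ i, U.In (f i) := by
    intro s
    induction s using Finset.induction_on with
    | empty => intro h; exact (U.not_bot h).elim
    | insert a s _ ih =>
      intro h
      rw [Finset.sup_insert, sup_iff] at h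
      rcases h with h | h
      · exact ⟨a, h⟩
      · exact ih h
  apply key Finset.univ
  rwa [Finset.sup_univ_eq_iSup]

end CBA
end Ult

/-- Boolean-valued names. -/
inductive Name (B : Type u) : Type (u + 1)
  | mk (α : Type u) (A : α → Name B) (v : α → B) : Name B

namespace Name

variable {B : Type u}

/-- index type of a name -/
def Idx : Name B → Type u
  | mk α _ _ => α

/-- children of a name -/
def ch : (x : Name B) → x.Idx → Name B
  | mk _ A _ => A

/-- weights of a name -/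
def wt : (x : Name B) → x.Idx → B
  | mk _ _ v => v

@[simp] theorem idx_mk (α : Type u) (A : α → Name B) (v : α → B) : (mk α A v).Idx = α := rfl
@[simp] theorem ch_mk (α : Type u) (A : α → Name B) (v : α → B) (a : α) :
    (mk α A v).ch a = A a := rfl
@[simp] theorem wt_mk (α : Type u) (A : α → Name B) (v : α → B) (a : α) :
    (mk α A v).wt a = v a := rfl

theorem ind {P : Name B → Prop} (h : ∀ x : Name B, (∀ i, P (x.ch i)) → P x) (x : Name B) :
    P x := by
  induction x with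
  | mk α A v ih => exact h _ ih

variable [CompleteBooleanAlgebra B]

/-- Boolean value of equality -/
def beq : Name B → Name B → B
  | mk _ A v, mk _ C w =>
    (⨅ a, v a ⇨ ⨆ b, w b ⊓ beq (A a) (C b)) ⊓ (⨅ b, w b ⇨ ⨆ a, v a ⊓ beq (A a) (C b))

/-- Boolean value of membership -/
def bmem (x y : Name B) : B := ⨆ b, y.wt b ⊓ beq x (y.ch b)

theorem beq_def (x y : Name B) : beq x y =
    (⨅ a, x.wt a ⇨ ⨆ b, y.wt b ⊓ beq (x.ch a) (y.ch b)) ⊓
      (⨅ b, y.wt b ⇨ ⨆ a, x.wt a ⊓ beq (x.ch a) (y.ch b)) := by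
  cases x; cases y; rfl

theorem beq_refl (x : Name B) : beq x x = ⊤ := by
  induction x using ind with
  | h x ih =>
    rw [beq_def, eq_top_iff]
    refine le_inf (le_iInf fun a => ?_) (le_iInf fun a => ?_)
    · rw [le_himp_iff]
      exact le_iSup_of_le a (by simp [ih a])
    · rw [le_himp_iff]
      exact le_iSup_of_le a (by simp [ih a])

theorem beq_symm (x y : Name B) : beq x y = beq y x := by
  induction x using ind generalizing y with
  | h x ih =>
    rw [beq_def, beq_def y x, inf_comm]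
    simp only [ih]

theorem beq_trans (x y z : Name B) : beq x y ⊓ beq y z ≤ beq x z := by
  induction x using ind generalizing y z with
  | h x ih =>
    refine Ult.le_of fun U hU => ?_
    rw [beq_def x z, U.inf_iff]
    constructor
    · refine U.iInf_intro hU fun a W hW => ?_
      rw [W.himp_iff]
      intro ha
      have h1 := (W.inf_iff.1 hW).1
      rw [beq_def, W.inf_iff] at h1
      have h2 := W.himp_iff.1 (W.iInf_elim h1.1 a) ha
      refine W.iSup_elim h2 hW fun b W hW hb => ?_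
      have h3 := (W.inf_iff.1 hW).2
      rw [beq_def, W.inf_iff] at h3
      have h4 := W.himp_iff.1 (W.iInf_elim h3.1 b) (W.inf_iff.1 hb).1
      refine W.iSup_elim h4 hb fun c W hb hc => ?_
      refine W.iSup_intro c ?_
      rw [W.inf_iff] at hb hc ⊢
      exact ⟨hc.1, W.mono (ih a _ _) (W.inf hb.2 hc.2)⟩
    · refine U.iInf_intro hU fun c W hW => ?_
      rw [W.himp_iff]
      intro hc
      have h1 := (W.inf_iff.1 hW).2
      rw [beq_def, W.inf_iff] at h1
      have h2 := W.himp_iff.1 (W.iInf_elim h1.2 c) hc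
      refine W.iSup_elim h2 hW fun b W hW hb => ?_
      have h3 := (W.inf_iff.1 hW).1
      rw [beq_def, W.inf_iff] at h3
      have h4 := W.himp_iff.1 (W.iInf_elim h3.2 b) (W.inf_iff.1 hb).1
      refine W.iSup_elim h4 hb fun a W hb ha => ?_
      refine W.iSup_intro a ?_
      rw [W.inf_iff] at hb ha ⊢
      exact ⟨ha.1, W.mono (ih a _ _) (W.inf ha.2 hb.2)⟩

theorem beq_bmem (x x' y : Name B) : beq x x' ⊓ bmem x y ≤ bmem x' y := by
  refine Ult.le_of fun U hU => ?_
  rw [U.inf_iff] at hU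
  refine U.iSup_elim hU.2 hU.1 fun b W h1 h2 => W.iSup_intro b ?_
  rw [W.inf_iff] at h2 ⊢
  refine ⟨h2.1, W.mono (beq_trans x' x _) (W.inf ?_ h2.2)⟩
  rwa [beq_symm]

theorem beq_def' (x y : Name B) : beq x y =
    (⨅ a, x.wt a ⇨ bmem (x.ch a) y) ⊓ (⨅ b, y.wt b ⇨ bmem (y.ch b) x) := by
  rw [beq_def]
  simp only [bmem, beq_symm (y.ch _) (x.ch _)]

theorem bmem_beq (x y y' : Name B) : beq y y' ⊓ bmem x y ≤ bmem x y' := by
  refine Ult.le_of fun U hU => ?_
  rw [U.inf_iff] at hU
  refine U.iSup_elim hU.2 hU.1 fun b W h1 h2 => ?_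
  rw [W.inf_iff] at h2
  rw [beq_def', W.inf_iff] at h1
  have := W.himp_iff.1 (W.iInf_elim h1.1 b) h2.1
  refine W.mono (beq_bmem (y.ch b) x y') (W.inf ?_ this)
  rw [beq_symm]
  exact h2.2

theorem wt_le_bmem (y : Name B) (b : y.Idx) : y.wt b ≤ bmem (y.ch b) y :=
  le_iSup_of_le b (by simp [beq_refl])

/-- The equivalence relation on names induced by an ultrafilter. -/
def setoid (U : Ult B) : Setoid (Name B) where
  r x y := U.In (beq x y)
  iseqv := ⟨fun x => by rw [beq_refl]; exact U.top, fun h => by rwa [beq_symm],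
    fun h1 h2 => U.mono (beq_trans _ _ _) (U.inf h1 h2)⟩

end Name

variable {B : Type u} [CompleteBooleanAlgebra B]

/-- The two-valued model: names modulo an ultrafilter. -/
def Mod (U : Ult B) : Type (u + 1) := Quotient (Name.setoid U)

/-- The class of a name. -/
def cl (U : Ult B) (x : Name B) : Mod U := Quotient.mk (Name.setoid U) x

/-- Membership in the two-valued model. -/
def Mem (U : Ult B) : Mod U → Mod U → Prop :=
  Quotient.lift₂ (fun x y => U.In (Name.bmem x y)) (by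
    intro x y x' y' hx hy
    apply propext
    constructor
    · intro h
      exact U.mono (Name.bmem_beq _ _ _) (U.inf hy (U.mono (Name.beq_bmem _ _ _) (U.inf hx h)))
    · intro h
      have hx' : U.In (Name.beq x' x) := by rw [Name.beq_symm]; exact hx
      have hy' : U.In (Name.beq y' y) := by rw [Name.beq_symm]; exact hy
      exact U.mono (Name.bmem_beq _ _ _) (U.inf hy' (U.mono (Name.beq_bmem _ _ _) (U.inf hx' h))))

theorem mem_cl (U : Ult B) (x y : Name B) : Mem U (cl U x) (cl U y) ↔ U.In (Name.bmem x y) :=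
  Iff.rfl

theorem cl_eq (U : Ult B) (x y : Name B) : cl U x = cl U y ↔ U.In (Name.beq x y) :=
  Quotient.eq (r := Name.setoid U)

theorem cl_surj (U : Ult B) (a : Mod U) : ∃ x, cl U x = a := Quotient.exists_rep a

/-- A property of ultrafilters is clopen when it is decided by one Boolean value. -/
class Clopen (P : Ult B → Prop) : Prop where
  ex_val : ∃ b : B, ∀ U, P U ↔ U.In b

/-- the Boolean value of a clopen property -/
noncomputable def bv (P : Ult B → Prop) [h : Clopen P] : B := h.ex_val.choose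

theorem in_bv (P : Ult B → Prop) [h : Clopen P] (U : Ult B) : U.In (bv P) ↔ P U :=
  (h.ex_val.choose_spec U).symm

namespace Clopen

variable {P Q : Ult B → Prop}

instance of_in (b : B) : Clopen fun U : Ult B => U.In b := ⟨b, fun _ => Iff.rfl⟩

instance mem (x y : Name B) : Clopen fun U => Mem U (cl U x) (cl U y) :=
  ⟨_, fun U => mem_cl U x y⟩

instance eq (x y : Name B) : Clopen fun U => cl U x = cl U y :=
  ⟨_, fun U => cl_eq U x y⟩

instance not [Clopen P] : Clopen fun U => ¬ P U :=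
  ⟨(bv P)ᶜ, fun U => by rw [U.compl_iff, in_bv]⟩

instance and [Clopen P] [Clopen Q] : Clopen fun U => P U ∧ Q U :=
  ⟨bv P ⊓ bv Q, fun U => by rw [U.inf_iff, in_bv, in_bv]⟩

instance or [Clopen P] [Clopen Q] : Clopen fun U => P U ∨ Q U :=
  ⟨bv P ⊔ bv Q, fun U => by rw [U.sup_iff, in_bv, in_bv]⟩

instance imp [Clopen P] [Clopen Q] : Clopen fun U => P U → Q U :=
  ⟨bv P ⇨ bv Q, fun U => by rw [U.himp_iff, in_bv, in_bv]⟩

instance iff [Clopen P] [Clopen Q] : Clopen fun U => P U ↔ Q U := by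
  simp only [iff_iff_implies_and_implies]
  infer_instance

instance const (p : Prop) : Clopen fun _ : Ult B => p := by
  by_cases h : p
  · exact ⟨⊤, fun U => ⟨fun _ => U.top, fun _ => h⟩⟩
  · exact ⟨⊥, fun U => ⟨fun h' => (h h').elim, fun h' => (U.not_bot h').elim⟩⟩

end Clopen

/-- Supremum elimination for clopen properties. -/
theorem iSup_elim (P Q : Ult B → Prop) [Clopen P] [Clopen Q] {ι : Sort v} {f : ι → B}
    {U : Ult B} (hf : U.In (⨆ i, f i)) (hp : P U)
    (H : ∀ i (W : Ult B), P W → W.In (f i) → Q W) : Q U := by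
  rw [← in_bv Q]
  exact U.iSup_elim hf ((in_bv P U).2 hp) fun i W h1 h2 =>
    (in_bv Q W).2 (H i W ((in_bv P W).1 h1) h2)

/-- Infimum introduction below a clopen property. -/
theorem iInf_intro (P : Ult B → Prop) [Clopen P] {ι : Sort v} {f : ι → B}
    {U : Ult B} (hp : P U) (H : ∀ i (W : Ult B), P W → W.In (f i)) : U.In (⨅ i, f i) :=
  U.iInf_intro ((in_bv P U).2 hp) fun i W h1 => H i W ((in_bv P W).1 h1)

theorem exists_iSup (P : Ult B → Prop) [Clopen P] {ι : Sort v} {f : ι → B}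
    {U : Ult B} (hf : U.In (⨆ i, f i)) (hp : P U) : ∃ i, ∃ W : Ult B, P W ∧ W.In (f i) := by
  obtain ⟨i, W, h1, h2⟩ := U.exists_iSup hf ((in_bv P U).2 hp)
  exact ⟨i, W, (in_bv P W).1 h1, h2⟩

/-- Density argument. -/
theorem dense_elim (Q : Ult B → Prop) [Clopen Q] {p : B} {U : Ult B} (hp : U.In p)
    (H : ∀ q, q ≤ p → q ≠ ⊥ → ∃ W : Ult B, W.In q ∧ Q W) : Q U := by
  by_contra hc
  have h1 : U.In (p ⊓ (bv Q)ᶜ) := U.inf hp (U.compl_iff.2 fun h' => hc ((in_bv Q U).1 h'))
  obtain ⟨W, hW, hP⟩ := H _ inf_le_left (U.ne_bot h1)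
  exact W.compl_iff.1 (W.inf_iff.1 hW).2 ((in_bv Q W).2 hP)

/-- least index principle -/
theorem iSup_eq_iSup_least {ι : Type v} [LinearOrder ι] [WellFoundedLT ι] (f : ι → B) :
    ⨆ i, f i = ⨆ i, f i ⊓ (⨆ j, ⨆ (_ : j < i), f j)ᶜ := by
  apply le_antisymm
  · refine iSup_le fun i => ?_
    induction i using WellFoundedLT.induction with
    | ind i ih =>
      have h1 : (⨆ j, ⨆ (_ : j < i), f j) ≤ ⨆ i, f i ⊓ (⨆ j, ⨆ (_ : j < i), f j)ᶜ :=
        iSup₂_le ih
      have h2 : f i ≤ (⨆ j, ⨆ (_ : j < i), f j) ⊔ (f i ⊓ (⨆ j, ⨆ (_ : j < i), f j)ᶜ) := by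
        rw [sup_inf_left, sup_compl_eq_top, inf_top_eq]
        exact le_sup_right
      exact h2.trans (sup_le h1 (le_iSup (fun i => f i ⊓ (⨆ j, ⨆ (_ : j < i), f j)ᶜ) i))
  · exact iSup_mono fun i => inf_le_left

/-- Mixing of names along a disjoint family. -/
theorem exists_mix {ι : Type u} (d : ι → B) (x : ι → Name B)
    (hd : ∀ i j, i ≠ j → d i ⊓ d j = ⊥) : ∃ m : Name B, ∀ i, d i ≤ Name.beq m (x i) := by
  refine ⟨Name.mk (Σ i, (x i).Idx) (fun s => (x s.1).ch s.2) (fun s => d s.1 ⊓ (x s.1).wt s.2),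
    fun i => ?_⟩
  rw [Name.beq_def']
  refine le_inf (le_iInf ?_) (le_iInf fun b => ?_)
  · rintro ⟨j, b⟩
    rw [le_himp_iff]
    by_cases hij : i = j
    · subst hij
      exact inf_le_right.trans (inf_le_right.trans (Name.wt_le_bmem _ _))
    · have : d i ⊓ (d j ⊓ (x j).wt b) = ⊥ := by
        rw [← inf_assoc, hd i j hij, bot_inf_eq]
      exact this.le.trans bot_le
  · rw [le_himp_iff]
    exact Name.wt_le_bmem
      (Name.mk (Σ i, (x i).Idx) (fun s => (x s.1).ch s.2) (fun s => d s.1 ⊓ (x s.1).wt s.2))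
      ⟨i, b⟩

theorem disjoint_least {ι : Type v} [LinearOrder ι] (f : ι → B) (i j : ι) (hij : i ≠ j) :
    (f i ⊓ (⨆ s, ⨆ (_ : s < i), f s)ᶜ) ⊓ (f j ⊓ (⨆ s, ⨆ (_ : s < j), f s)ᶜ) = ⊥ := by
  have key : ∀ i j : ι, i < j →
      (f i ⊓ (⨆ s, ⨆ (_ : s < i), f s)ᶜ) ⊓ (f j ⊓ (⨆ s, ⨆ (_ : s < j), f s)ᶜ) = ⊥ := by
    intro i j hij
    refine Ult.eq_bot_of fun U hU => ?_
    simp only [U.inf_iff, U.compl_iff] at hU
    exact hU.2.2 (U.iSup_intro i (U.iSup_intro hij hU.1.1))
  rcases lt_or_gt_of_ne hij with h | h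
  · exact key i j h
  · rw [inf_comm]; exact key j i h

theorem exists_max_aux {ι : Type u} (x : ι → Name B) (b : Name B → B)
    (hb : ∀ x y, Name.beq x y ⊓ b y ≤ b x) : ∃ m, ∀ i, b (x i) ≤ b m := by
  classical
  obtain ⟨_, _⟩ := exists_wellFoundedLT ι
  obtain ⟨m, hm⟩ := exists_mix
    (fun r : ι => b (x r) ⊓ (⨆ s : ι, ⨆ (_ : s < r), b (x s))ᶜ) x
    (disjoint_least fun r => b (x r))
  refine ⟨m, fun y => ?_⟩
  have h1 : b (x y) ≤ ⨆ r : ι, b (x r) := le_iSup (fun r : ι => b (x r)) y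
  rw [iSup_eq_iSup_least] at h1
  refine h1.trans (iSup_le fun r => ?_)
  exact le_trans (le_inf (hm r) inf_le_left) (hb m (x r))

/-- Maximum principle, Boolean form. -/
theorem exists_max (b : Name B → B) (hb : ∀ x y, Name.beq x y ⊓ b y ≤ b x) :
    ∃ m, ∀ x, b x ≤ b m := by
  choose x hx using fun r : Set.range b => r.2
  obtain ⟨m, hm⟩ := exists_max_aux x b hb
  refine ⟨m, fun y => ?_⟩
  have := hm ⟨b y, y, rfl⟩
  rwa [hx] at this

/-- Maximum principle. -/
theorem max_principle (Q : ∀ U : Ult B, Mod U → Prop)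
    [∀ n : Name B, Clopen fun U => Q U (cl U n)] :
    ∃ m : Name B, ∀ U, (∃ x, Q U x) → Q U (cl U m) := by
  obtain ⟨m, hm⟩ := exists_max (fun n => bv fun U => Q U (cl U n)) (by
    intro x y
    refine Ult.le_of fun U hU => ?_
    rw [U.inf_iff, ← cl_eq, in_bv] at hU
    rw [in_bv, hU.1]
    exact hU.2)
  refine ⟨m, fun U ⟨x, hx⟩ => ?_⟩
  obtain ⟨n, rfl⟩ := cl_surj U x
  exact (in_bv (fun U => Q U (cl U m)) U).1
    (U.mono (hm n) ((in_bv (fun U => Q U (cl U n)) U).2 hx))

instance Clopen.ex {Q : ∀ U : Ult B, Mod U → Prop}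
    [∀ n : Name B, Clopen fun U => Q U (cl U n)] : Clopen fun U => ∃ x, Q U x := by
  obtain ⟨m, hm⟩ := max_principle Q
  exact ⟨bv fun U => Q U (cl U m), fun U => ⟨fun hx => (in_bv _ U).2 (hm U hx),
    fun hx => ⟨_, (in_bv (fun U => Q U (cl U m)) U).1 hx⟩⟩⟩

instance Clopen.all {Q : ∀ U : Ult B, Mod U → Prop}
    [∀ n : Name B, Clopen fun U => Q U (cl U n)] : Clopen fun U => ∀ x, Q U x := by
  have : Clopen fun U => ¬ ∃ x, ¬ Q U x := inferInstance
  simpa only [not_exists, not_not] using this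

instance Clopen.exu {Q : ∀ U : Ult B, Mod U → Prop}
    [∀ n : Name B, Clopen fun U => Q U (cl U n)] : Clopen fun U => ∃! x, Q U x := by
  have : Clopen fun U => ∃ x, Q U x ∧ ∀ y, Q U y → y = x := inferInstance
  exact this

theorem mem_of_wt {U : Ult B} {y : Name B} {i : y.Idx} (h : U.In (y.wt i)) :
    Mem U (cl U (y.ch i)) (cl U y) :=
  (mem_cl U _ _).2 (U.mono (Name.wt_le_bmem y i) h)

theorem mem_mk {U : Ult B} {α : Type u} {A : α → Name B} {v : α → B} (i : α) (h : U.In (v i)) :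
    Mem U (cl U (A i)) (cl U (Name.mk α A v)) :=
  mem_of_wt (y := Name.mk α A v) (i := i) h

/-- Induction over the members of a name, below a clopen condition. -/
theorem mem_ind (P : Ult B → Prop) [Clopen P] (Q : ∀ U : Ult B, Mod U → Prop)
    [∀ n : Name B, Clopen fun U => Q U (cl U n)] {x : Name B} {U : Ult B}
    (hp : P U) (H : ∀ i (W : Ult B), P W → W.In (x.wt i) → Q W (cl W (x.ch i))) :
    ∀ z, Mem U z (cl U x) → Q U z := by
  intro z hz
  obtain ⟨n, rfl⟩ := cl_surj U z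
  refine iSup_elim P (fun U => Q U (cl U n)) ((mem_cl U _ _).1 hz) hp fun i W h1 h2 => ?_
  rw [W.inf_iff, ← cl_eq] at h2
  show Q W (cl W n)
  rw [h2.2]
  exact H i W h1 h2.1

theorem mem_mk_ind (P : Ult B → Prop) [Clopen P] (Q : ∀ U : Ult B, Mod U → Prop)
    [∀ n : Name B, Clopen fun U => Q U (cl U n)] {α : Type u} {A : α → Name B} {v : α → B}
    {U : Ult B}
    (hp : P U) (H : ∀ i (W : Ult B), P W → W.In (v i) → Q W (cl W (A i))) :
    ∀ z, Mem U z (cl U (Name.mk α A v)) → Q U z :=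
  mem_ind P Q (x := Name.mk α A v) hp H

/-- A member of a name is, in some nearby ultrafilter, one of its listed children. -/
theorem exists_child (P : Ult B → Prop) [Clopen P] {n x : Name B} {U : Ult B} (hp : P U)
    (h : Mem U (cl U n) (cl U x)) :
    ∃ i, ∃ W : Ult B, P W ∧ W.In (x.wt i) ∧ cl W n = cl W (x.ch i) := by
  obtain ⟨i, W, h1, h2⟩ := exists_iSup P ((mem_cl U _ _).1 h) hp
  rw [W.inf_iff, ← cl_eq] at h2
  exact ⟨i, W, h1, h2.1, h2.2⟩

end Pool.Agent.Lib.MP_5d9fac_lc
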