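import Pool.Agent.Lib.MP_5d9fac_lc.Defs
import Pool.Agent.Lib.MP_5d9fac_lc.Names

/-!
The quotient of the Boolean-valued universe by an ultrafilter is a model of ZFC.
-/

namespace Pool.Agent.Lib.MP_5d9fac_lc

open FirstOrder

universe u v

variable {B : Type u} [CompleteBooleanAlgebra B]

section Instances

instance (x y : Name B) : Clopen fun U => Sub (Mem U) (cl U x) (cl U y) := by
  unfold Sub; infer_instance
instance (x : Name B) : Clopen fun U => IsEmp (Mem U) (cl U x) := by
  unfold IsEmp; infer_instance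
instance (x y : Name B) : Clopen fun U => IsSuc (Mem U) (cl U x) (cl U y) := by
  unfold IsSuc; infer_instance
instance (x : Name B) : Clopen fun U => IsInd (Mem U) (cl U x) := by
  unfold IsInd; infer_instance
instance (x y z : Name B) : Clopen fun U => IsUPair (Mem U) (cl U x) (cl U y) (cl U z) := by
  unfold IsUPair; infer_instance
instance (x y : Name B) : Clopen fun U => IsPow (Mem U) (cl U x) (cl U y) := by
  unfold IsPow; infer_instance
instance (x y z : Name B) : Clopen fun U => IsOPair (Mem U) (cl U x) (cl U y) (cl U z) := by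
  unfold IsOPair; infer_instance
instance (x y z : Name B) : Clopen fun U => App (Mem U) (cl U x) (cl U y) (cl U z) := by
  unfold App; infer_instance
instance (x y z : Name B) : Clopen fun U => IsFun (Mem U) (cl U x) (cl U y) (cl U z) := by
  unfold IsFun; infer_instance
instance (x y z : Name B) : Clopen fun U => IsBij (Mem U) (cl U x) (cl U y) (cl U z) := by
  unfold IsBij; infer_instance
instance (x y : Name B) : Clopen fun U => Equinum (Mem U) (cl U x) (cl U y) := by
  unfold Equinum; infer_instance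
instance (x : Name B) : Clopen fun U => IsOrd (Mem U) (cl U x) := by
  unfold IsOrd; infer_instance
instance (x : Name B) : Clopen fun U => IsCard (Mem U) (cl U x) := by
  unfold IsCard; infer_instance
instance (x y z : Name B) : Clopen fun U => IsProd (Mem U) (cl U x) (cl U y) (cl U z) := by
  unfold IsProd; infer_instance
instance (x : Name B) : Clopen fun U => IsTwo (Mem U) (cl U x) := by
  unfold IsTwo; infer_instance

end Instances

theorem mod_ext (U : Ult B) (a b : Mod U) (h : ∀ x, Mem U x a ↔ Mem U x b) : a = b := by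
  obtain ⟨x, rfl⟩ := cl_surj U a
  obtain ⟨y, rfl⟩ := cl_surj U b
  rw [cl_eq, Name.beq_def', U.inf_iff]
  constructor
  · refine iInf_intro (fun U => ∀ z, Mem U z (cl U x) ↔ Mem U z (cl U y)) h fun i W hW => ?_
    rw [W.himp_iff, ← mem_cl]
    exact fun hi => (hW _).1 (mem_of_wt hi)
  · refine iInf_intro (fun U => ∀ z, Mem U z (cl U x) ↔ Mem U z (cl U y)) h fun i W hW => ?_
    rw [W.himp_iff, ← mem_cl]
    exact fun hi => (hW _).2 (mem_of_wt hi)

theorem mod_found (U : Ult B) (a : Mod U) (h : ∃ x, Mem U x a) :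
    ∃ x, Mem U x a ∧ ∀ y, Mem U y x → ¬ Mem U y a := by
  obtain ⟨a, rfl⟩ := cl_surj U a
  by_contra hc
  have key : ∀ n : Name B, ∀ W : Ult B,
      (¬ ∃ x, Mem W x (cl W a) ∧ ∀ y, Mem W y x → ¬ Mem W y (cl W a)) →
      ¬ Mem W (cl W n) (cl W a) := by
    intro n
    induction n using Name.ind with
    | h n ih =>
      intro W hW hn
      refine hW ⟨_, hn, ?_⟩
      exact mem_ind (fun W => ¬ ∃ x, Mem W x (cl W a) ∧ ∀ y, Mem W y x → ¬ Mem W y (cl W a))
        (fun W y => ¬ Mem W y (cl W a)) hW fun i W h1 _ => ih i W h1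
  obtain ⟨x, hx⟩ := h
  obtain ⟨n, rfl⟩ := cl_surj U x
  exact key n U hc hx

/-- name of an unordered pair -/
def upairN (x y : Name B) : Name B :=
  Name.mk (ULift Bool) (fun b => cond b.down x y) (fun _ => ⊤)

theorem isUPair_upairN (U : Ult B) (x y : Name B) :
    IsUPair (Mem U) (cl U (upairN x y)) (cl U x) (cl U y) := by
  intro z
  constructor
  · intro hz
    refine mem_mk_ind (fun _ => True) (fun U z => z = cl U x ∨ z = cl U y) trivial ?_ z hz
    rintro ⟨_ | _⟩ W _ _
    · exact Or.inr rfl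
    · exact Or.inl rfl
  · rintro (rfl | rfl)
    · exact mem_mk (A := fun b : ULift Bool => cond b.down x y) ⟨true⟩ U.top
    · exact mem_mk (A := fun b : ULift Bool => cond b.down x y) ⟨false⟩ U.top

theorem mod_pair (U : Ult B) (a b : Mod U) : ∃ c, IsUPair (Mem U) c a b := by
  obtain ⟨x, rfl⟩ := cl_surj U a
  obtain ⟨y, rfl⟩ := cl_surj U b
  exact ⟨_, isUPair_upairN U x y⟩

theorem mod_irrefl (U : Ult B) (a : Mod U) : ¬ Mem U a a := by
  intro h
  obtain ⟨c, hc⟩ := mod_pair U a a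
  obtain ⟨x, hx, h2⟩ := mod_found U c ⟨a, (hc a).2 (Or.inl rfl)⟩
  have : x = a := by simpa using (hc x).1 hx
  subst this
  exact h2 x h hx

theorem mod_asymm (U : Ult B) (a b : Mod U) (h : Mem U a b) : ¬ Mem U b a := by
  intro h'
  obtain ⟨c, hc⟩ := mod_pair U a b
  obtain ⟨x, hx, h2⟩ := mod_found U c ⟨a, (hc a).2 (Or.inl rfl)⟩
  rcases (hc x).1 hx with rfl | rfl
  · exact h2 b h' ((hc b).2 (Or.inr rfl))
  · exact h2 a h ((hc a).2 (Or.inl rfl))

theorem mod_union (U : Ult B) (a : Mod U) :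
    ∃ c, ∀ x, Mem U x c ↔ ∃ y, Mem U y a ∧ Mem U x y := by
  obtain ⟨a, rfl⟩ := cl_surj U a
  let c : Name B := Name.mk (Σ i : a.Idx, (a.ch i).Idx) (fun s => (a.ch s.1).ch s.2)
    (fun s => a.wt s.1 ⊓ (a.ch s.1).wt s.2)
  refine ⟨cl U c, fun x => ⟨fun hx => ?_, ?_⟩⟩
  · refine mem_mk_ind (fun _ => True) (fun U x => ∃ y, Mem U y (cl U a) ∧ Mem U x y) trivial
      ?_ x hx
    rintro ⟨i, j⟩ W _ h
    rw [W.inf_iff] at h
    exact ⟨_, mem_of_wt h.1, mem_of_wt h.2⟩
  · rintro ⟨y, hy, hx⟩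
    refine mem_ind (fun _ => True) (fun U y => ∀ x, Mem U x y → Mem U x (cl U c)) trivial
      ?_ y hy x hx
    intro i W _ hi
    refine mem_ind (fun W => W.In (a.wt i)) (fun U x => Mem U x (cl U c)) hi ?_
    intro j W hi hj
    exact mem_mk (A := fun s : (Σ i : a.Idx, (a.ch i).Idx) => (a.ch s.1).ch s.2) ⟨i, j⟩
      (W.inf hi hj)

/-- name for a separated subset -/
noncomputable def sepN (Q : ∀ U : Ult B, Mod U → Prop)
    [∀ n : Name B, Clopen fun U => Q U (cl U n)] (a : Name B) : Name B :=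
  Name.mk a.Idx a.ch fun i => a.wt i ⊓ bv fun U => Q U (cl U (a.ch i))

theorem mem_sepN (Q : ∀ U : Ult B, Mod U → Prop)
    [∀ n : Name B, Clopen fun U => Q U (cl U n)] (a : Name B) (U : Ult B) (x : Mod U) :
    Mem U x (cl U (sepN Q a)) ↔ Mem U x (cl U a) ∧ Q U x := by
  constructor
  · intro hx
    refine mem_mk_ind (fun _ => True) (fun U x => Mem U x (cl U a) ∧ Q U x) trivial ?_ x hx
    intro i W _ h
    rw [W.inf_iff, in_bv] at h
    exact ⟨mem_of_wt h.1, h.2⟩
  · rintro ⟨hx, hQ⟩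
    refine mem_ind (fun _ => True) (fun U x => Q U x → Mem U x (cl U (sepN Q a))) trivial
      ?_ x hx hQ
    intro i W _ hi hQ
    refine mem_mk (A := a.ch) i (W.inf hi ?_)
    exact (in_bv (fun U => Q U (cl U (a.ch i))) W).2 hQ

/-- the subset of `a` with weights cut down by `g` -/
def subN (a : Name B) (g : a.Idx → B) : Name B := Name.mk a.Idx a.ch fun i => a.wt i ⊓ g i

/-- name for the power set -/
def powN (a : Name B) : Name B := Name.mk (a.Idx → B) (subN a) fun _ => ⊤

theorem sub_subN (a : Name B) (g : a.Idx → B) (U : Ult B) :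
    Sub (Mem U) (cl U (subN a g)) (cl U a) :=
  mem_mk_ind (fun _ => True) (fun U x => Mem U x (cl U a)) trivial fun _ W _ h =>
    mem_of_wt (W.inf_iff.1 h).1

theorem isPow_powN (a : Name B) (U : Ult B) : IsPow (Mem U) (cl U (powN a)) (cl U a) := by
  intro x
  constructor
  · intro hx
    exact mem_mk_ind (fun _ => True) (fun U x => Sub (Mem U) x (cl U a)) trivial
      (fun g W _ _ => sub_subN a g W) x hx
  · intro hx
    obtain ⟨z, rfl⟩ := cl_surj U x
    have h1 : cl U z = cl U (sepN (fun U w => Mem U w (cl U z)) a) := by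
      refine mod_ext U _ _ fun w => ?_
      rw [mem_sepN]
      exact ⟨fun h => ⟨hx w h, h⟩, fun h => h.2⟩
    rw [h1]
    exact mem_mk (A := subN a) (fun i => bv fun U => Mem U (cl U (a.ch i)) (cl U z)) U.top

theorem exists_collect (R : ∀ U : Ult B, Mod U → Mod U → Prop)
    [∀ n m : Name B, Clopen fun U => R U (cl U n) (cl U m)] (a : Name B) :
    ∃ c : Name B, ∀ U x, Mem U x (cl U a) → (∃ y, R U x y) → ∃ y, Mem U y (cl U c) ∧ R U x y := by
  choose y hy using fun i : a.Idx => max_principle fun U y => R U (cl U (a.ch i)) y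
  refine ⟨Name.mk a.Idx y fun _ => ⊤, fun U => ?_⟩
  refine mem_ind (fun _ => True)
    (fun U x => (∃ y, R U x y) → ∃ z, Mem U z (cl U (Name.mk a.Idx y fun _ => ⊤)) ∧ R U x z)
    trivial ?_
  intro i W _ _ h
  exact ⟨_, mem_mk (A := y) i W.top, hy i W h⟩

theorem mod_choice (U : Ult B) (a : Mod U) (h1 : ∀ x, Mem U x a → ∃ y, Mem U y x)
    (h2 : ∀ x x' y, Mem U x a → Mem U x' a → Mem U y x → Mem U y x' → x = x') :
    ∃ c, ∀ x, Mem U x a → ∃! y, Mem U y x ∧ Mem U y c := by
  obtain ⟨a, rfl⟩ := cl_surj U a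
  choose y hy using fun i : a.Idx => max_principle fun U y => Mem U y (cl U (a.ch i))
  obtain ⟨_, _⟩ := exists_wellFoundedLT a.Idx
  let w : a.Idx → B := fun i =>
    a.wt i ⊓ (⨆ j, ⨆ (_ : j < i), a.wt j ⊓ Name.beq (a.ch j) (a.ch i))ᶜ
  let c : Name B := Name.mk a.Idx y w
  let P : Ult B → Prop := fun U => (∀ x, Mem U x (cl U a) → ∃ y, Mem U y x) ∧
    ∀ x x' y, Mem U x (cl U a) → Mem U x' (cl U a) → Mem U y x → Mem U y x' → x = x'
  have hP : P U := ⟨h1, h2⟩
  have hPc : Clopen P := by unfold P; infer_instance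
  refine ⟨cl U c, fun x hx => existsUnique_of_exists_of_unique ?_ ?_⟩
  · refine mem_ind P (fun U x => ∃ y, Mem U y x ∧ Mem U y (cl U c)) hP ?_ x hx
    intro i W hW hi
    have h3 : W.In (⨆ j, a.wt j ⊓ Name.beq (a.ch j) (a.ch i)) :=
      W.iSup_intro i (W.inf hi (by rw [Name.beq_refl]; exact W.top))
    rw [iSup_eq_iSup_least] at h3
    refine iSup_elim P (fun U => ∃ y, Mem U y (cl U (a.ch i)) ∧ Mem U y (cl U c)) h3 hW ?_
    intro j W hW hj
    rw [W.inf_iff, W.inf_iff, ← cl_eq, W.compl_iff] at hj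
    refine ⟨cl W (y j), ?_, mem_mk (A := y) j (W.inf hj.1.1 (W.compl_iff.2 fun h4 => hj.2 ?_))⟩
    · rw [← hj.1.2]
      exact hy j W (hW.1 _ (mem_of_wt hj.1.1))
    · have h5 := (cl_eq _ _ _).1 hj.1.2
      refine W.iSup_elim h4 h5 fun k W h5 h6 => ?_
      refine W.iSup_elim h6 h5 fun hk W h5 h6 => ?_
      refine W.iSup_intro k (W.iSup_intro hk ?_)
      rw [W.inf_iff] at h6 ⊢
      exact ⟨h6.1, W.mono (Name.beq_trans _ _ _) (W.inf h6.2 h5)⟩
  · rintro y1 y2 ⟨h3, h4⟩ ⟨h5, h6⟩
    have key : ∀ y1, Mem U y1 (cl U c) → ∀ y2, Mem U y2 (cl U c) →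
        ∀ x, Mem U x (cl U a) → Mem U y1 x → Mem U y2 x → y1 = y2 := by
      refine mem_mk_ind P (fun U y1 => ∀ y2, Mem U y2 (cl U c) →
        ∀ x, Mem U x (cl U a) → Mem U y1 x → Mem U y2 x → y1 = y2) hP ?_
      intro j W hW hj
      refine mem_mk_ind (fun W => P W ∧ W.In (w j)) (fun U y2 =>
        ∀ x, Mem U x (cl U a) → Mem U (cl U (y j)) x → Mem U y2 x → cl U (y j) = y2) ⟨hW, hj⟩ ?_
      rintro k W ⟨hW, hj⟩ hk x hx hjx hkx
      rw [W.inf_iff, W.compl_iff] at hj hk
      have e1 : x = cl W (a.ch j) :=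
        hW.2 _ _ _ hx (mem_of_wt hj.1) hjx (hy j W (hW.1 _ (mem_of_wt hj.1)))
      have e2 : x = cl W (a.ch k) :=
        hW.2 _ _ _ hx (mem_of_wt hk.1) hkx (hy k W (hW.1 _ (mem_of_wt hk.1)))
      rcases lt_trichotomy j k with h | h | h
      · exact (hk.2 (W.iSup_intro j (W.iSup_intro h
          (W.inf hj.1 ((cl_eq _ _ _).1 (e1.symm.trans e2)))))).elim
      · rw [h]
      · exact (hj.2 (W.iSup_intro k (W.iSup_intro h
          (W.inf hk.1 ((cl_eq _ _ _).1 (e2.symm.trans e1)))))).elim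
    exact key y1 h4 y2 h6 x hx h3 h5

/-! ### Ordinal names -/

/-- the canonical name of an ordinal -/
noncomputable def ordN (o : Ordinal.{u}) : Name B :=
  Name.mk (Shrink.{u} (Set.Iio o)) (fun i => ordN ((equivShrink (Set.Iio o)).symm i).1)
    fun _ => ⊤
termination_by o
decreasing_by exact ((equivShrink (Set.Iio o)).symm i).2

theorem ordN_mem {a b : Ordinal.{u}} (h : a < b) (U : Ult B) :
    Mem U (cl U (ordN a)) (cl U (ordN b)) := by
  rw [ordN.eq_1 b]
  have := mem_mk (U := U) (A := fun i : Shrink.{u} (Set.Iio b) =>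
    (ordN ((equivShrink (Set.Iio b)).symm i).1 : Name B)) (v := fun _ => ⊤)
    (equivShrink (Set.Iio b) ⟨a, h⟩) U.top
  simpa using this

theorem ord_ind (P : Ult B → Prop) [Clopen P] (Q : ∀ U : Ult B, Mod U → Prop)
    [∀ n : Name B, Clopen fun U => Q U (cl U n)] {o : Ordinal.{u}} {U : Ult B}
    (hp : P U) (H : ∀ a < o, ∀ W : Ult B, P W → Q W (cl W (ordN a))) :
    ∀ z, Mem U z (cl U (ordN o)) → Q U z := by
  rw [ordN.eq_1 o]
  exact mem_mk_ind P Q hp fun i W h _ => H _ ((equivShrink (Set.Iio o)).symm i).2 W h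

theorem ordN_inj {a b : Ordinal.{u}} {U : Ult B} (h : cl U (ordN a) = cl U (ordN b)) : a = b := by
  rcases lt_trichotomy a b with h1 | h1 | h1
  · have := ordN_mem h1 U
    rw [h] at this
    exact (mod_irrefl U _ this).elim
  · exact h1
  · have := ordN_mem h1 U
    rw [h] at this
    exact (mod_irrefl U _ this).elim

theorem ordN_mem_iff {a b : Ordinal.{u}} {U : Ult B} :
    Mem U (cl U (ordN a)) (cl U (ordN b)) ↔ a < b := by
  refine ⟨fun h => ?_, fun h => ordN_mem h U⟩
  rcases lt_trichotomy a b with h1 | h1 | h1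
  · exact h1
  · subst h1
    exact (mod_irrefl U _ h).elim
  · exact (mod_asymm U _ _ h (ordN_mem h1 U)).elim

theorem ordN_sub {a b : Ordinal.{u}} (h : a ≤ b) (U : Ult B) :
    Sub (Mem U) (cl U (ordN a)) (cl U (ordN b)) :=
  ord_ind (fun _ => True) (fun U x => Mem U x (cl U (ordN b))) trivial
    fun _ hc W _ => ordN_mem (hc.trans_le h) W

theorem isOrd_ordN (o : Ordinal.{u}) (U : Ult B) : IsOrd (Mem U) (cl U (ordN o)) := by
  constructor
  · exact ord_ind (fun _ => True) (fun U x => Sub (Mem U) x (cl U (ordN o))) trivial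
      fun _ hc W _ => ordN_sub hc.le W
  · intro x y hx hy
    refine ord_ind (fun _ => True) (fun U x => ∀ y, Mem U y (cl U (ordN o)) →
      Mem U x y ∨ x = y ∨ Mem U y x) trivial ?_ x hx y hy
    intro a _ W _
    refine ord_ind (fun _ => True) (fun U y =>
      Mem U (cl U (ordN a)) y ∨ cl U (ordN a) = y ∨ Mem U y (cl U (ordN a))) trivial ?_
    intro b _ W _
    rcases lt_trichotomy a b with h1 | h1 | h1
    · exact Or.inl (ordN_mem h1 W)
    · exact Or.inr (Or.inl (by rw [h1]))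
    · exact Or.inr (Or.inr (ordN_mem h1 W))

theorem isEmp_ordN (U : Ult B) : IsEmp (Mem U) (cl U (ordN 0)) := fun x hx =>
  ord_ind (fun _ => True) (fun _ _ => False) trivial (fun _ ha _ _ => by simp at ha) x hx

theorem isSuc_ordN (o : Ordinal.{u}) (U : Ult B) :
    IsSuc (Mem U) (cl U (ordN (o + 1))) (cl U (ordN o)) := by
  intro x
  constructor
  · refine ord_ind (fun _ => True)
      (fun U x => Mem U x (cl U (ordN o)) ∨ x = cl U (ordN o)) trivial ?_ x
    intro a ha W _
    rcases (Order.lt_add_one_iff.1 ha).lt_or_eq with h | h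
    · exact Or.inl (ordN_mem h W)
    · exact Or.inr (by rw [h])
  · rintro (h | rfl)
    · exact ordN_sub (le_self_add) U x h
    · exact ordN_mem (lt_add_one o) U

theorem isInd_omega (U : Ult B) : IsInd (Mem U) (cl U (ordN Ordinal.omega0)) := by
  refine ⟨⟨_, isEmp_ordN U, ordN_mem Ordinal.omega0_pos U⟩, ?_⟩
  refine ord_ind (fun _ => True)
    (fun U a => ∃ s, IsSuc (Mem U) s a ∧ Mem U s (cl U (ordN Ordinal.omega0))) trivial ?_
  intro a ha W _
  exact ⟨_, isSuc_ordN a W, ordN_mem (Ordinal.isSuccLimit_omega0.add_one_lt ha) W⟩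

theorem isOmega_omega (U : Ult B) : IsOmega (Mem U) (cl U (ordN Ordinal.omega0)) := by
  refine ⟨isInd_omega U, fun v hv => ?_⟩
  obtain ⟨v, rfl⟩ := cl_surj U v
  refine ord_ind (fun U => IsInd (Mem U) (cl U v)) (fun U x => Mem U x (cl U v)) hv ?_
  intro a ha W hW
  obtain ⟨n, rfl⟩ := Ordinal.lt_omega0.1 ha
  clear ha
  induction n with
  | zero =>
    obtain ⟨e, he, hev⟩ := hW.1
    have : e = cl W (ordN 0) := mod_ext W _ _ fun x =>
      ⟨fun h => (he x h).elim, fun h => (isEmp_ordN W x h).elim⟩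
    simpa [← this] using hev
  | succ n ih =>
    obtain ⟨s, hs, hsv⟩ := hW.2 _ ih
    have : s = cl W (ordN ((n : Ordinal.{u}) + 1)) := mod_ext W _ _ fun x => by
      rw [hs x, isSuc_ordN n W x]
    simpa [← this] using hsv

/-! ### Formulas -/

theorem term_var {α : Type v} (t : LSet.Term α) : ∃ a, t = Language.Term.var a := by
  cases t with
  | var a => exact ⟨a, rfl⟩
  | func f _ => exact Empty.elim f

theorem clopen_realize {α : Type v} {n : ℕ} (φ : LSet.BoundedFormula α n) (v : α → Name B)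
    (xs : Fin n → Name B) : Clopen fun U : Ult B =>
      @Language.BoundedFormula.Realize LSet (Mod U) (memStr (Mem U)) α n φ
        (fun a => cl U (v a)) (fun i => cl U (xs i)) := by
  induction φ with
  | falsum => exact Clopen.const False
  | equal t₁ t₂ =>
    obtain ⟨a, rfl⟩ := term_var t₁
    obtain ⟨b, rfl⟩ := term_var t₂
    have := Clopen.eq (Sum.elim v xs a) (Sum.elim v xs b)
    rcases a with a | a <;> rcases b with b | b <;> exact this
  | rel R ts =>
    obtain ⟨rfl⟩ := R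
    obtain ⟨a, ha⟩ := term_var (ts 0)
    obtain ⟨b, hb⟩ := term_var (ts 1)
    have := Clopen.mem (Sum.elim v xs a) (Sum.elim v xs b)
    simp only [Language.BoundedFormula.Realize, Language.Structure.RelMap, Fin.cast_eq_self, ha, hb]
    rcases a with a | a <;> rcases b with b | b <;> exact this
  | imp φ ψ ih1 ih2 =>
    have := ih1 xs
    have := ih2 xs
    exact Clopen.imp
  | @all n φ ih =>
    have : ∀ m : Name B, Clopen fun U : Ult B =>
        @Language.BoundedFormula.Realize LSet (Mod U) (memStr (Mem U)) α (n + 1) φ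
          (fun a => cl U (v a)) (Fin.snoc (fun i => cl U (xs i)) (cl U m)) := by
      intro m
      have h := ih (Fin.snoc xs m)
      have e : ∀ U : Ult B, (fun i => cl U ((Fin.snoc xs m : Fin (n + 1) → Name B) i)) =
          Fin.snoc (fun i => cl U (xs i)) (cl U m) := fun U =>
        Fin.comp_snoc (cl U) xs m
      simpa only [e] using h
    exact Clopen.all (Q := fun U x =>
      @Language.BoundedFormula.Realize LSet (Mod U) (memStr (Mem U)) α (n + 1) φ
          (fun a => cl U (v a)) (Fin.snoc (fun i => cl U (xs i)) x))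

/-- A definable relation of one model extends to a clopen family. -/
theorem definable_family {U : Ult B} {k : ℕ} {s : Set (Fin k → Mod U)}
    (h : @Set.Definable (Mod U) Set.univ LSet (memStr (Mem U)) (Fin k) s) :
    ∃ Q : ∀ W : Ult B, (Fin k → Mod W) → Prop,
      (∀ n : Fin k → Name B, Clopen fun W => Q W fun i => cl W (n i)) ∧ ∀ x, Q U x ↔ x ∈ s := by
  let _ := memStr (Mem U)
  obtain ⟨φ, rfl⟩ := Set.definable_iff_exists_formula_sum.1 h
  choose nm hnm using cl_surj U
  refine ⟨fun W x => @Language.Formula.Realize LSet (Mod W) (memStr (Mem W)) _ φ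
    (Sum.elim (fun a => cl W (nm a.1)) x), fun n => ?_, fun x => ?_⟩
  · have := clopen_realize φ (Sum.elim (fun a => nm a.1) n) default
    have e : ∀ W : Ult B, (fun a => cl W
        (Sum.elim (fun a : (Set.univ : Set (Mod U)) => nm a.1) n a)) =
        Sum.elim (fun a => cl W (nm a.1)) fun i => cl W (n i) := by
      intro W
      funext a
      rcases a with a | a <;> rfl
    have e2 : ∀ W : Ult B, (fun i => cl W ((default : Fin 0 → Name B) i)) = default :=
      fun W => Subsingleton.elim _ _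
    simp only [e, e2] at this
    exact this
  · simp only [hnm]
    rfl

theorem mod_sep (U : Ult B) (S : Set (Mod U))
    (h : @Set.Definable₁ (Mod U) Set.univ LSet (memStr (Mem U)) S) (a : Mod U) :
    ∃ b, ∀ x, Mem U x b ↔ (Mem U x a ∧ x ∈ S) := by
  obtain ⟨Q, hQ, hs⟩ := definable_family h
  obtain ⟨a, rfl⟩ := cl_surj U a
  have : ∀ n : Name B, Clopen fun W => Q W fun _ => cl W n := fun n => hQ fun _ => n
  refine ⟨cl U (sepN (fun W x => Q W fun _ => x) a), fun x => ?_⟩
  rw [mem_sepN, hs]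
  rfl

theorem mod_repl (U : Ult B) (R : Set (Mod U × Mod U))
    (h : @Set.Definable₂ (Mod U) Set.univ LSet (memStr (Mem U)) R) (a : Mod U)
    (hf : ∀ x, Mem U x a → ∃! y, (x, y) ∈ R) :
    ∃ b, ∀ y, Mem U y b ↔ ∃ x, Mem U x a ∧ (x, y) ∈ R := by
  obtain ⟨Q, hQ, hs⟩ := definable_family h
  obtain ⟨a, rfl⟩ := cl_surj U a
  have : ∀ n m : Name B, Clopen fun W => Q W ![cl W n, cl W m] := by
    intro n m
    have e : ∀ W : Ult B, (fun i => cl W (![n, m] i)) = ![cl W n, cl W m] := by
      intro W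
      funext i
      fin_cases i <;> rfl
    simpa only [e] using hQ ![n, m]
  obtain ⟨c, hc⟩ := exists_collect (fun W x y => Q W ![x, y]) a
  refine ⟨cl U (sepN (fun W y => ∃ x, Mem W x (cl W a) ∧ Q W ![x, y]) c), fun y => ?_⟩
  have hs' : ∀ x y, Q U ![x, y] ↔ (x, y) ∈ R := fun x y => hs _
  rw [mem_sepN]
  simp only [hs']
  refine ⟨fun h => h.2, fun ⟨x, hx, hxy⟩ => ⟨?_, x, hx, hxy⟩⟩
  obtain ⟨z, hz, hxz⟩ := hc U x hx ⟨y, (hs' _ _).2 hxy⟩
  rwa [(hf x hx).unique hxy ((hs' _ _).1 hxz)]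

theorem isZFC_mod (U : Ult B) : IsZFC (Mem U) where
  extensionality := mod_ext U
  foundation := mod_found U
  pairing := mod_pair U
  union := mod_union U
  powerset a := by
    obtain ⟨a, rfl⟩ := cl_surj U a
    exact ⟨_, isPow_powN a U⟩
  infinity := ⟨_, isInd_omega U⟩
  separation := mod_sep U
  replacement := mod_repl U
  choice := mod_choice U

end Pool.Agent.Lib.MP_5d9fac_lc
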