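import Pool.Agent.Lib.MP_5d9fac_lc.Names

/-!
Combinatorics in complete Boolean algebras with the countable chain condition.
-/

namespace Pool.Agent.Lib.MP_5d9fac_lc

open Cardinal

universe u v

/-- countable chain condition -/
def CCC (B : Type u) [CompleteBooleanAlgebra B] : Prop :=
  ∀ (ι : Type u) (f : ι → B), (∀ i j, i ≠ j → f i ⊓ f j = ⊥) → {i | f i ≠ ⊥}.Countable

variable {B : Type u} [CompleteBooleanAlgebra B]

theorem exists_countable_iSup (hB : CCC B) {ι : Type u} (f : ι → B) :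
    ∃ C : Set ι, C.Countable ∧ ⨆ i, f i ≤ ⨆ i : C, f i := by
  obtain ⟨_, _⟩ := exists_wellFoundedLT ι
  refine ⟨_, hB ι _ (disjoint_least f), ?_⟩
  rw [iSup_eq_iSup_least]
  refine iSup_le fun i => ?_
  by_cases h : f i ⊓ (⨆ s, ⨆ (_ : s < i), f s)ᶜ = ⊥
  · rw [h]; exact bot_le
  · exact inf_le_left.trans
      (le_iSup (fun i : {i | f i ⊓ (⨆ s, ⨆ (_ : s < i), f s)ᶜ ≠ ⊥} => f i) ⟨i, h⟩)

theorem mk_iUnion_lt {ι α : Type u} {θ : Cardinal.{u}} (hθ : ℵ₀ ≤ θ) (f : ι → Set α)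
    (hι : #ι < θ.ord.cof) (hf : ∀ i, #(f i) < θ) : #(⋃ i, f i) < θ :=
  (mk_iUnion_le f).trans_lt (mul_lt_of_lt hθ (hι.trans_le (Ordinal.cof_ord_le θ))
    (iSup_lt_of_lt_cof_ord hι hf))

theorem mk_iUnion_lt_of_countable {ι α : Type u} {θ : Cardinal.{u}} (hθ : ℵ₀ < θ)
    (f : ι → Set α) (hι : #ι < θ) (hf : ∀ i, (f i).Countable) : #(⋃ i, f i) < θ := by
  refine (mk_iUnion_le f).trans_lt (mul_lt_of_lt hθ.le hι (lt_of_le_of_lt ?_ hθ))
  exact ciSup_le' fun i => (le_aleph0_iff_set_countable.2 (hf i))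

theorem exists_not_mem_of_lt {α : Type u} {s t : Set α} (h : #s < #t) : ∃ x ∈ t, x ∉ s := by
  by_contra hc
  push Not at hc
  exact (mk_le_mk_of_subset hc).not_gt h

/-- `a` is forced to be large below `q`. -/
def Large {I : Type u} (θ : Cardinal.{u}) (a : I → B) (q : B) : Prop :=
  ∀ r, r ≤ q → r ≠ ⊥ → θ ≤ #{i | r ⊓ a i ≠ ⊥}

theorem Large.mono {I : Type u} {θ : Cardinal.{u}} {a : I → B} {q q' : B} (h : Large θ a q)
    (hq : q' ≤ q) : Large θ a q' := fun r hr => h r (hr.trans hq)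

theorem exists_small_part (hB : CCC B) {I : Type u} {θ : Cardinal.{u}} (hθ : ℵ₀ < θ.ord.cof)
    (a : I → B) : ∃ s : B, #{i | s ⊓ a i ≠ ⊥} < θ ∧ Large θ a sᶜ := by
  let S := {p : B // #{i | p ⊓ a i ≠ ⊥} < θ}
  obtain ⟨C, hC, hle⟩ := exists_countable_iSup hB (fun p : S => p.1)
  refine ⟨⨆ p : S, p.1, ?_, fun r hr hr0 => ?_⟩
  · have : {i | (⨆ p : S, p.1) ⊓ a i ≠ ⊥} ⊆ ⋃ p : C, {i | p.1.1 ⊓ a i ≠ ⊥} := by
      intro i hi
      obtain ⟨U, hU⟩ := Ult.exists_of_ne_bot hi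
      rw [U.inf_iff] at hU
      obtain ⟨p, W, h1, h2⟩ := U.exists_iSup (U.mono hle hU.1) hU.2
      exact Set.mem_iUnion.2 ⟨p, W.ne_bot (W.inf h2 h1)⟩
    refine (mk_le_mk_of_subset this).trans_lt
      (mk_iUnion_lt (hθ.le.trans (Ordinal.cof_ord_le θ)) _ ?_ fun p => p.1.2)
    exact (le_aleph0_iff_set_countable.2 hC).trans_lt hθ
  · by_contra hc
    have h1 : r ≤ ⨆ p : S, p.1 := le_iSup (fun p : S => p.1) ⟨r, not_le.1 hc⟩
    apply hr0
    exact le_bot_iff.1 ((le_inf h1 hr).trans inf_compl_eq_bot.le)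

section Enum

variable {I : Type u} [LinearOrder I] [WellFoundedLT I]

/-- Boolean value of: the `γ`-th element of the set with weights `a` is `α`. -/
noncomputable def enumB (a : I → B) : I → I → B :=
  WellFoundedLT.fix fun γ ih α =>
    a α ⊓ (⨆ δ, ⨆ h : δ < γ, ih δ h α)ᶜ ⊓ ⨅ β, ⨅ _ : β < α, a β ⇨ ⨆ δ, ⨆ h : δ < γ, ih δ h β

theorem enumB_eq (a : I → B) (γ α : I) : enumB a γ α =
    a α ⊓ (⨆ δ, ⨆ _ : δ < γ, enumB a δ α)ᶜ ⊓
      ⨅ β, ⨅ _ : β < α, a β ⇨ ⨆ δ, ⨆ _ : δ < γ, enumB a δ β := by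
  conv_lhs => rw [enumB, WellFoundedLT.fix_eq]
  rfl

theorem enumB_le (a : I → B) (γ α : I) : enumB a γ α ≤ a α := by
  rw [enumB_eq]
  exact inf_le_left.trans inf_le_left

theorem enumB_fun (a : I → B) (γ α α' : I) (h : α ≠ α') : enumB a γ α ⊓ enumB a γ α' = ⊥ := by
  have key : ∀ α α' : I, α < α' → enumB a γ α ⊓ enumB a γ α' = ⊥ := by
    intro α α' h
    refine Ult.eq_bot_of fun U hU => ?_
    rw [enumB_eq, enumB_eq a γ α'] at hU
    simp only [U.inf_iff, U.compl_iff] at hU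
    exact hU.1.1.2 (U.himp_iff.1 (U.iInf_elim (U.iInf_elim hU.2.2 α) h) hU.1.1.1)
  rcases lt_or_gt_of_ne h with h | h
  · exact key _ _ h
  · rw [inf_comm]; exact key _ _ h

theorem enumB_inj (a : I → B) (γ γ' α : I) (h : γ ≠ γ') : enumB a γ α ⊓ enumB a γ' α = ⊥ := by
  have key : ∀ γ γ' : I, γ < γ' → enumB a γ α ⊓ enumB a γ' α = ⊥ := by
    intro γ γ' h
    refine Ult.eq_bot_of fun U hU => ?_
    rw [enumB_eq a γ' α] at hU
    simp only [U.inf_iff, U.compl_iff] at hU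
    exact hU.2.1.2 (U.iSup_intro γ (U.iSup_intro h hU.1))
  rcases lt_or_gt_of_ne h with h | h
  · exact key _ _ h
  · rw [inf_comm]; exact key _ _ h

theorem enumB_surj_aux (a : I → B) (α : I) : a α ≤ ⨆ γ, ⨆ _ : γ ≤ α, enumB a γ α := by
  induction α using WellFoundedLT.induction with
  | ind α ih =>
    have h1 : (⨅ β, ⨅ _ : β < α, a β ⇨ ⨆ δ, ⨆ _ : δ < α, enumB a δ β) = ⊤ := by
      simp only [iInf_eq_top, himp_eq_top_iff]
      intro β hβ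
      refine (ih β hβ).trans (iSup₂_le fun γ hγ => ?_)
      exact le_iSup₂_of_le γ (hγ.trans_lt hβ) le_rfl
    refine Ult.le_of fun U hU => ?_
    by_cases h : U.In (⨆ δ, ⨆ _ : δ < α, enumB a δ α)
    · exact U.mono (iSup₂_le fun γ hγ => le_iSup₂_of_le γ hγ.le le_rfl) h
    · refine U.iSup_intro α (U.iSup_intro le_rfl ?_)
      rw [enumB_eq, h1]
      exact U.inf (U.inf hU (U.compl_iff.2 h)) U.top

theorem enumB_surj (a : I → B) (α : I) : a α ≤ ⨆ γ, enumB a γ α :=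
  (enumB_surj_aux a α).trans (iSup₂_le fun γ _ => le_iSup (fun γ => enumB a γ α) γ)

theorem enumB_total (hB : CCC B) {θ : Cardinal.{u}} (hθ : ℵ₀ < θ)
    (hI : ∀ i : I, #(Set.Iio i) < θ) (a : I → B) {q : B} (hq : Large θ a q) (γ : I) :
    q ≤ ⨆ α, enumB a γ α := by
  let Z : Set I := ⋃ δ : Set.Iio γ, {α | enumB a δ α ≠ ⊥}
  have hZ : #Z < θ := mk_iUnion_lt_of_countable hθ _ (hI γ) fun δ =>
    hB _ _ (enumB_fun a δ)
  let g : I → B := fun α => a α ⊓ (⨆ δ, ⨆ _ : δ < γ, enumB a δ α)ᶜ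
  have h1 : q ≤ ⨆ α, g α := by
    by_contra hc
    have h2 : q ⊓ (⨆ α, g α)ᶜ ≠ ⊥ := by
      intro h0
      apply hc
      rwa [← sdiff_eq, sdiff_eq_bot_iff] at h0
    obtain ⟨α, hα, hαZ⟩ := exists_not_mem_of_lt (hZ.trans_le (hq _ inf_le_left h2))
    obtain ⟨U, hU⟩ := Ult.exists_of_ne_bot hα
    simp only [U.inf_iff, U.compl_iff] at hU
    refine hU.1.2 (U.iSup_intro α (U.inf hU.2 ?_))
    have : (⨆ δ, ⨆ _ : δ < γ, enumB a δ α) = ⊥ := by
      simp only [iSup_eq_bot]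
      intro δ hδ
      by_contra h3
      exact hαZ (Set.mem_iUnion.2 ⟨⟨δ, hδ⟩, h3⟩)
    rw [this, compl_bot]
    exact U.top
  rw [iSup_eq_iSup_least] at h1
  refine h1.trans (iSup_mono fun α => ?_)
  rw [enumB_eq]
  refine inf_le_inf_left _ (le_iInf₂ fun β hβ => ?_)
  refine Ult.le_of fun U hU => ?_
  rw [U.himp_iff]
  intro hb
  by_contra h4
  exact U.compl_iff.1 hU (U.iSup_intro β (U.iSup_intro hβ (U.inf hb (U.compl_iff.2 h4))))

end Enum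

/-- The combinatorial core: a Boolean-valued colouring of `L × K` has, below any condition, a
homogeneous rectangle that is forced to be large in both coordinates. -/
theorem exists_rectangle (hB : CCC B) {K L : Type u} {T : ℕ → Type u} (ι : ∀ n, T n → B)
    (hι : ∀ b : B, b ≠ ⊥ → ∃ n t, ι n t ≠ ⊥ ∧ ι n t ≤ b)
    (hK : ℵ₀ < (#K).ord.cof) (hL0 : ℵ₀ < (#L).ord.cof)
    (hL : #((Σ n, K → Set (T n)) × Bool) < (#L).ord.cof)
    (c : Bool → L → K → B) (hc : ∀ α ξ, c true α ξ ⊔ c false α ξ = ⊤) {p : B} (hp : p ≠ ⊥) :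
    ∃ q, q ≤ p ∧ q ≠ ⊥ ∧ ∃ (a : L → B) (y : K → B) (i : Bool),
      Large (#L) a q ∧ Large (#K) y q ∧ ∀ α ξ, a α ⊓ y ξ ≤ c i α ξ := by
  let Y : (Σ n, K → Set (T n)) → K → B := fun S ξ => ⨆ t : S.2 ξ, ι S.1 t
  let A : (Σ n, K → Set (T n)) × Bool → L → B := fun S α => ⨅ ξ, Y S.1 ξ ⇨ c S.2 α ξ
  choose sY hsY hlY using fun S => exists_small_part hB hK (Y S)
  choose sA hsA hlA using fun S => exists_small_part hB hL0 (A S)
  by_contra hcon
  have h1 : ∀ S : (Σ n, K → Set (T n)) × Bool, p ⊓ (sY S.1)ᶜ ≤ sA S := by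
    intro S
    by_contra h2
    have h3 : p ⊓ (sY S.1)ᶜ ⊓ (sA S)ᶜ ≠ ⊥ := by
      intro h0
      apply h2
      rwa [← sdiff_eq, sdiff_eq_bot_iff] at h0
    refine hcon ⟨_, inf_le_left.trans inf_le_left, h3, A S, Y S.1, S.2,
      (hlA S).mono inf_le_right, (hlY S.1).mono (inf_le_left.trans inf_le_right), fun α ξ => ?_⟩
    rw [← le_himp_iff]
    exact iInf_le (fun ξ => Y S.1 ξ ⇨ c S.2 α ξ) ξ
  have h4 := mk_iUnion_lt (hL0.le.trans (Ordinal.cof_ord_le _)) _ hL hsA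
  rw [← mk_univ (α := L)] at h4
  obtain ⟨α, -, hα⟩ := exists_not_mem_of_lt h4
  let S : ULift.{u} (ℕ × Bool) → (Σ n, K → Set (T n)) := fun k =>
    ⟨k.down.1, fun ξ => {t | ι k.down.1 t ≤ c k.down.2 α ξ}⟩
  have h5 : ∀ k, p ≤ sY (S k) := by
    intro k
    have h6 : A (S k, k.down.2) α = ⊤ := by
      simp only [A, iInf_eq_top, himp_eq_top_iff]
      exact fun ξ => iSup_le fun t => t.2
    have h7 : sA (S k, k.down.2) = ⊥ := by
      by_contra h8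
      refine hα (Set.mem_iUnion.2 ⟨(S k, k.down.2), ?_⟩)
      simpa [h6] using h8
    have h9 := h1 (S k, k.down.2)
    rwa [h7, le_bot_iff, ← sdiff_eq, sdiff_eq_bot_iff] at h9
  have h10 := mk_iUnion_lt (hK.le.trans (Ordinal.cof_ord_le _)) _
    (lt_of_le_of_lt (mk_le_aleph0 (α := ULift.{u} (ℕ × Bool))) hK) fun k => hsY (S k)
  rw [← mk_univ (α := K)] at h10
  obtain ⟨ξ, -, hξ⟩ := exists_not_mem_of_lt h10
  have h11 : ∃ i, p ⊓ c i α ξ ≠ ⊥ := by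
    by_contra h12
    push Not at h12
    apply hp
    rw [← inf_top_eq p, ← hc α ξ, inf_sup_left, h12, h12, bot_sup_eq]
  obtain ⟨i, hi⟩ := h11
  obtain ⟨n, t, ht0, ht⟩ := hι _ hi
  refine hξ (Set.mem_iUnion.2 ⟨⟨n, i⟩, fun h0 => ht0 (le_bot_iff.1 (le_trans ?_ h0.le))⟩)
  refine le_inf ((ht.trans inf_le_left).trans (h5 _)) ?_
  exact le_iSup (fun t : (S ⟨n, i⟩).2 ξ => ι n t) ⟨t, ht.trans inf_le_right⟩

end Pool.Agent.Lib.MP_5d9fac_lc
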