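import Pool.Agent.Lib.MP_5d9fac_lc.Funcs

/-!
The Cohen algebra: regular open subsets of the Cantor cube.
-/

namespace Pool.Agent.Lib.MP_5d9fac_lc

open Cardinal TopologicalSpace

universe u

/-- The Cohen algebra on the index set `I`. -/
def Cohen (I : Type u) : Type u := Heyting.Regular (Opens (I → Bool))

namespace Cohen

variable {I : Type u}

noncomputable instance : CompleteBooleanAlgebra (Cohen I) :=
  { (inferInstance : BooleanAlgebra (Heyting.Regular (Opens (I → Bool)))),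
    (Heyting.Regular.gi (α := Opens (I → Bool))).liftCompleteLattice with }

/-- the underlying open set -/
def opn (b : Cohen I) : Opens (I → Bool) := Heyting.Regular.val b

/-- regularization -/
def reg (o : Opens (I → Bool)) : Cohen I := Heyting.Regular.toRegular o

theorem reg_le {o : Opens (I → Bool)} {b : Cohen I} : reg o ≤ b ↔ o ≤ opn b :=
  (Heyting.Regular.gi (α := Opens (I → Bool))).gc o b

theorem opn_inf (a b : Cohen I) : opn (a ⊓ b) = opn a ⊓ opn b := rfl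
theorem opn_compl (a : Cohen I) : opn aᶜ = (opn a)ᶜ := rfl
theorem opn_bot : opn (⊥ : Cohen I) = ⊥ := rfl
theorem opn_reg (o : Opens (I → Bool)) : opn (reg o) = oᶜᶜ := rfl
theorem opn_inj {a b : Cohen I} (h : opn a = opn b) : a = b := Heyting.Regular.coe_injective h

theorem le_opn_reg (o : Opens (I → Bool)) : o ≤ opn (reg o) := le_compl_compl

theorem ne_bot_of {o : Opens (I → Bool)} {b : Cohen I} (ho : o ≠ ⊥) (h : o ≤ opn b) : b ≠ ⊥ := by
  rintro rfl
  exact ho (le_bot_iff.1 h)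

/-- cylinder sets -/
def cyl (s : Finset I) (f : I → Bool) : Opens (I → Bool) :=
  ⟨Set.pi s fun i => {f i}, isOpen_set_pi s.finite_toSet fun _ _ => isOpen_discrete _⟩

theorem mem_cyl {s : Finset I} {f g : I → Bool} : g ∈ cyl s f ↔ ∀ i ∈ s, g i = f i := Iff.rfl

theorem cyl_ne_bot (s : Finset I) (f : I → Bool) : cyl s f ≠ ⊥ := by
  intro h
  have : f ∈ cyl s f := mem_cyl.2 fun _ _ => rfl
  rw [h] at this
  exact this

theorem exists_cyl {b : Cohen I} (hb : b ≠ ⊥) : ∃ s f, cyl s f ≤ opn b := by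
  have h1 : opn b ≠ ⊥ := fun h => hb (opn_inj h)
  obtain ⟨f, hf⟩ := (Opens.ne_bot_iff_nonempty _).1 h1
  obtain ⟨s, u, hu, hs⟩ := isOpen_pi_iff.1 (opn b).isOpen f hf
  refine ⟨s, f, fun g hg => hs fun i hi => ?_⟩
  rw [mem_cyl.1 hg i hi]
  exact (hu i hi).2

theorem countable_of_incompatible {J : Type u} (f : J → I → Bool) (n : ℕ) :
    ∀ (A : Set J) (s : J → Finset I), (∀ j ∈ A, (s j).card ≤ n) →
      (∀ j ∈ A, ∀ k ∈ A, j ≠ k → ∃ i ∈ s j, i ∈ s k ∧ f j i ≠ f k i) → A.Countable := by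
  classical
  induction n with
  | zero =>
    intro A s h1 h2
    refine Set.Subsingleton.countable fun j hj k hk => ?_
    by_contra hjk
    obtain ⟨i, hi, -⟩ := h2 j hj k hk hjk
    have := h1 j hj
    rw [Nat.le_zero, Finset.card_eq_zero] at this
    simp [this] at hi
  | succ n ih =>
    intro A s h1 h2
    rcases A.eq_empty_or_nonempty with rfl | ⟨j₀, hj₀⟩
    · exact Set.countable_empty
    have h3 : A ⊆ {j₀} ∪ ⋃ i ∈ (s j₀ : Set I), {j ∈ A | i ∈ s j ∧ f j i ≠ f j₀ i} := by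
      intro j hj
      by_cases h : j = j₀
      · exact Or.inl h
      · obtain ⟨i, hi, hi', hf⟩ := h2 j hj j₀ hj₀ h
        exact Or.inr (Set.mem_biUnion hi' ⟨hj, hi, hf⟩)
    refine Set.Countable.mono h3 ((Set.countable_singleton _).union
      (Set.Countable.biUnion (s j₀).countable_toSet fun i _ => ?_))
    refine ih _ (fun j => (s j).erase i) (fun j hj => ?_) fun j hj k hk hjk => ?_
    · rw [Finset.card_erase_of_mem hj.2.1]
      have := h1 j hj.1
      omega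
    · obtain ⟨i', h4, h5, h6⟩ := h2 j hj.1 k hk.1 hjk
      have h7 : i' ≠ i := by
        rintro rfl
        have a1 := hj.2.2
        have a2 := hk.2.2
        revert a1 a2 h6
        cases f j i' <;> cases f k i' <;> cases f j₀ i' <;> simp
      exact ⟨i', Finset.mem_erase.2 ⟨h7, h4⟩, Finset.mem_erase.2 ⟨h7, h5⟩, h6⟩

theorem ccc : CCC (Cohen I) := by
  classical
  intro J b hb
  have h1 : ∀ j, ∃ s f, b j ≠ ⊥ → cyl s f ≤ opn (b j) := by
    intro j
    by_cases h : b j = ⊥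
    · exact ⟨∅, fun _ => true, fun h' => (h' h).elim⟩
    · obtain ⟨s, f, h2⟩ := exists_cyl h
      exact ⟨s, f, fun _ => h2⟩
  choose s f hsf using h1
  have h2 : {j | b j ≠ ⊥} ⊆ ⋃ n : ℕ, {j | b j ≠ ⊥ ∧ (s j).card ≤ n} := fun j hj =>
    Set.mem_iUnion.2 ⟨_, hj, le_rfl⟩
  refine Set.Countable.mono h2 (Set.countable_iUnion fun n =>
    countable_of_incompatible f n _ s (fun j hj => hj.2) fun j hj k hk hjk => ?_)
  by_contra hc
  push Not at hc
  have h3 : (fun i => if i ∈ s j then f j i else f k i) ∈ opn (b j ⊓ b k) := by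
    rw [opn_inf]
    refine ⟨hsf j hj.1 (mem_cyl.2 fun i hi => if_pos hi), hsf k hk.1 (mem_cyl.2 fun i hi => ?_)⟩
    by_cases h : i ∈ s j
    · rw [if_pos h, hc i h hi]
    · rw [if_neg h]
  rw [hb j k hjk] at h3
  exact h3

/-- the generic bit at `i` -/
def bit (i : I) : Cohen I := reg (cyl {i} fun _ => true)

theorem generic {q : Cohen I} (hq : q ≠ ⊥) :
    ∃ s : Finset I, ∀ i j, i ∉ s → j ∉ s → i ≠ j → q ⊓ bit i ⊓ (bit j)ᶜ ≠ ⊥ := by
  classical
  obtain ⟨s, f, h⟩ := exists_cyl hq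
  refine ⟨s, fun i j hi hj hij => ne_bot_of (cyl_ne_bot (insert i (insert j s))
    (Function.update (Function.update f j false) i true)) ?_⟩
  rw [opn_inf, opn_inf, opn_compl]
  refine le_inf (le_inf (le_trans (fun g hg => mem_cyl.2 fun k hk => ?_) h)
    (le_trans (fun g hg => mem_cyl.2 fun k hk => ?_) (le_opn_reg _))) ?_
  · have h1 : k ≠ i := fun e => hi (e ▸ hk)
    have h2 : k ≠ j := fun e => hj (e ▸ hk)
    rw [mem_cyl.1 hg k (by simp [hk]), Function.update_of_ne h1, Function.update_of_ne h2]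
  · rw [Finset.mem_singleton.1 hk, mem_cyl.1 hg i (by simp), Function.update_self]
  · rw [bit, opn_reg, compl_compl_compl, le_compl_iff_disjoint_right, disjoint_iff, eq_bot_iff]
    rintro g ⟨h1, h2⟩
    have a1 := mem_cyl.1 h1 j (by simp)
    have a2 := mem_cyl.1 h2 j (by simp)
    rw [Function.update_of_ne hij.symm, Function.update_self, a2] at a1
    simp at a1

open Classical in
/-- a dense family indexed by pairs of finite sets -/
noncomputable def cond (p : Finset I × Finset I) : Cohen I := reg (cyl p.1 fun i => i ∈ p.2)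

theorem cond_ne_bot (p : Finset I × Finset I) : cond p ≠ ⊥ :=
  ne_bot_of (cyl_ne_bot _ _) (le_opn_reg _)

theorem exists_cond {b : Cohen I} (hb : b ≠ ⊥) : ∃ p, cond p ≤ b := by
  classical
  obtain ⟨s, f, h⟩ := exists_cyl hb
  refine ⟨(s, s.filter fun i => f i = true), reg_le.2 (le_trans ?_ h)⟩
  intro g hg
  refine mem_cyl.2 fun i hi => ?_
  rw [mem_cyl.1 hg i hi]
  simp [hi]

theorem card_le [Infinite I] : #(Cohen I) ≤ 2 ^ #I := by
  have h1 : Function.Injective fun b : Cohen I => {p | cond p ≤ b} := by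
    have key : ∀ a b : Cohen I, {p | cond p ≤ a} = {p | cond p ≤ b} → a ≤ b := by
      intro a b h
      by_contra hab
      have h2 : a ⊓ bᶜ ≠ ⊥ := by
        intro h0
        apply hab
        rwa [← sdiff_eq, sdiff_eq_bot_iff] at h0
      obtain ⟨p, hp⟩ := exists_cond h2
      have h3 : p ∈ {p | cond p ≤ a} := hp.trans inf_le_left
      rw [h] at h3
      exact cond_ne_bot p (le_bot_iff.1
        ((le_inf h3 (hp.trans inf_le_right)).trans inf_compl_eq_bot.le))
    exact fun a b h => le_antisymm (key a b h) (key b a h.symm)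
  have h4 := mk_le_of_injective h1
  rw [mk_set] at h4
  simpa [mk_finset_of_infinite, mul_eq_self (aleph0_le_mk I)] using h4

end Cohen

/-- iterated power sets -/
def Tw : ℕ → Type
  | 0 => ℕ
  | n + 1 => Set (Tw n)

/-- the union of the tower -/
abbrev Mu : Type := Σ n, Tw n

theorem mk_Tw_succ (n : ℕ) : #(Tw (n + 1)) = 2 ^ #(Tw n) := mk_set

theorem aleph0_le_Tw (n : ℕ) : ℵ₀ ≤ #(Tw n) := by
  induction n with
  | zero => exact mk_nat.ge
  | succ n ih => rw [mk_Tw_succ]; exact ih.trans (cantor _).le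

theorem Tw_le_Mu (n : ℕ) : #(Tw n) ≤ #Mu := mk_le_of_injective sigma_mk_injective

theorem Tw_lt_succ (n : ℕ) : #(Tw n) < #(Tw (n + 1)) := by
  rw [mk_Tw_succ]; exact cantor _

theorem Tw_mono : Monotone fun n => #(Tw n) := monotone_nat_of_le_succ fun n => (Tw_lt_succ n).le

theorem aleph0_le_Mu : ℵ₀ ≤ #Mu := (aleph0_le_Tw 0).trans (Tw_le_Mu 0)

instance : Infinite Mu := infinite_iff.2 aleph0_le_Mu

theorem exists_Tw {κ : Cardinal.{0}} (h0 : ℵ₀ ≤ κ) (h : κ < #Mu) : ∃ n, κ ≤ #(Tw n) := by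
  by_contra hc
  push Not at hc
  have h1 : #Mu ≤ sum fun _ : ℕ => κ := by
    rw [mk_sigma]
    exact sum_le_sum _ _ fun n => (hc n).le
  rw [sum_const', mk_nat, mul_eq_right h0 h0 aleph0_ne_zero] at h1
  exact h1.not_gt h

theorem succ_lt_Mu {κ : Cardinal.{0}} (h0 : ℵ₀ ≤ κ) (h : κ < #Mu) : Order.succ κ < #Mu := by
  obtain ⟨n, hn⟩ := exists_Tw h0 h
  exact (Order.succ_le_of_lt (hn.trans_lt (Tw_lt_succ n))).trans_lt
    ((Tw_lt_succ _).trans_le (Tw_le_Mu _))

theorem card_family {K : Type} (h0 : ℵ₀ ≤ #K) (h : #K < #Mu) :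
    #((Σ n, K → Set (Tw n)) × Bool) ≤ #Mu := by
  obtain ⟨m, hm⟩ := exists_Tw h0 h
  have h1 : ∀ n, #(K → Set (Tw n)) ≤ #Mu := by
    intro n
    rw [← power_def, mk_set, ← power_mul]
    refine le_trans ?_ (Tw_le_Mu (max n m + 1))
    rw [mk_Tw_succ]
    refine power_le_power_left two_ne_zero ?_
    exact mul_le_of_le (aleph0_le_Tw _) (Tw_mono (le_max_left n m))
      (hm.trans (Tw_mono (le_max_right n m)))
  have h2 : #(Σ n, K → Set (Tw n)) ≤ #Mu := by
    rw [mk_sigma]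
    refine (sum_le_sum _ (fun _ : ℕ => #Mu) h1).trans ?_
    rw [sum_const', mk_nat, mul_eq_right aleph0_le_Mu aleph0_le_Mu aleph0_ne_zero]
  rw [mk_prod, lift_id, lift_id]
  exact mul_le_of_le aleph0_le_Mu h2 (mk_le_aleph0.trans aleph0_le_Mu)

/-- coding a subset of `Mu` by a sequence in `Mu` -/
def code (s : Set Mu) (n : ℕ) : Mu := ⟨n + 1, {x : Tw n | (⟨n, x⟩ : Mu) ∈ s}⟩

theorem exists_code_ne {s t : Set Mu} (h : s ≠ t) : ∃ n, code s n ≠ code t n := by
  by_contra hc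
  push Not at hc
  apply h
  ext ⟨n, x⟩
  have h1 : {x : Tw n | (⟨n, x⟩ : Mu) ∈ s} = {x : Tw n | (⟨n, x⟩ : Mu) ∈ t} :=
    sigma_mk_injective (β := Tw) (i := n + 1) (hc n)
  exact Set.ext_iff.1 h1 x

/-- The forcing algebra. -/
abbrev BB : Type := Cohen (Mu × Mu)

theorem mk_MuMu : #(Mu × Mu) = #Mu := by
  simp only [mk_prod, lift_id, mul_eq_self aleph0_le_Mu]

theorem main_twoPow {κ : Cardinal.{0}} (h0 : ℵ₀ ≤ κ) (h : κ < #Mu) (U : Ult BB) :
    IsTwoPow (Mem U) (cl U (ordN ((2 : Cardinal.{0}) ^ #Mu).ord)) (cl U (ordN κ.ord)) := by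
  classical
  have hK : #κ.ord.ToType = κ := mk_ord_toType κ
  have : Infinite κ.ord.ToType := infinite_iff.2 (hK.symm ▸ h0)
  obtain ⟨emb⟩ : Nonempty (κ.ord.ToType ↪ Mu) := (le_def _ _).1 (hK.symm ▸ h.le)
  obtain ⟨e⟩ : Nonempty (κ.ord.ToType ≃ κ.ord.ToType × ℕ) := by
    rw [← Cardinal.eq, mk_prod, lift_id, lift_id, hK, mk_nat, mul_eq_left h0 h0 aleph0_ne_zero]
  refine isTwoPow_ordN Cohen.ccc (aleph0_le_Mu.trans_lt (cantor _)) ?_ (S := Set Mu) mk_set.ge
    (fun s ξ => Cohen.bit (emb ξ, code s (e ξ).2)) ?_ U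
  · rw [← power_def, hK]
    refine (power_le_power_right Cohen.card_le).trans ?_
    rw [mk_MuMu, ← power_mul, mul_eq_left aleph0_le_Mu h.le (aleph0_pos.trans_le h0).ne']
  · intro s t hst q hq
    obtain ⟨n, hn⟩ := exists_code_ne hst
    obtain ⟨F, hF⟩ := Cohen.generic hq
    have hinj : Function.Injective fun k : κ.ord.ToType => emb (e.symm (k, n)) := by
      intro k k' hk
      simpa using hk
    obtain ⟨_, ⟨k, rfl⟩, hk⟩ := (Set.infinite_range_of_injective hinj).exists_notMem_finset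
      (F.image Prod.fst)
    refine ⟨e.symm (k, n), hF _ _ (fun h1 => hk ?_) (fun h1 => hk ?_) ?_⟩
    · exact Finset.mem_image.2 ⟨_, h1, rfl⟩
    · exact Finset.mem_image.2 ⟨_, h1, rfl⟩
    · simpa using hn

theorem main_posRel {κ : Cardinal.{0}} (h0 : ℵ₀ < κ.ord.cof) (h : κ < #Mu) (U : Ult BB) :
    PosRel (Mem U) (cl U (ordN ((2 : Cardinal.{0}) ^ #Mu).ord)) (cl U (ordN κ.ord)) := by
  have hK : #κ.ord.ToType = κ := mk_ord_toType κ
  have h1 : ℵ₀ ≤ κ := h0.le.trans (Ordinal.cof_ord_le κ)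
  have hcof : #Mu < ((2 : Cardinal.{0}) ^ #Mu).ord.cof := lt_cof_ord_power aleph0_le_Mu one_lt_two
  obtain ⟨j⟩ : Nonempty (Finset (Mu × Mu) × Finset (Mu × Mu) ↪ Mu) := by
    rw [← le_def, mk_prod, lift_id, mk_finset_of_infinite, mk_MuMu, mul_eq_self aleph0_le_Mu]
  refine posRel_ordN Cohen.ccc (T := Tw) (fun n t => Cohen.cond (Function.invFun j ⟨n, t⟩)) ?_ h0
    (aleph0_le_Mu.trans_lt hcof)
    ((card_family (hK.symm ▸ h1) (hK.symm ▸ h)).trans_lt hcof) U
  intro b hb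
  obtain ⟨p, hp⟩ := Cohen.exists_cond hb
  refine ⟨(j p).1, (j p).2, Cohen.cond_ne_bot _, ?_⟩
  rwa [Sigma.eta, Function.leftInverse_invFun j.injective p]

theorem main (U : Ult BB) :
    ∃ w m, IsOmega (Mem U) w ∧ IsCard (Mem U) w ∧ IsCard (Mem U) m ∧ Mem U w m ∧
      ∀ n, IsCard (Mem U) n → Sub (Mem U) w n → Mem U n m →
        ∃ k l, Mem U k m ∧ IsSuccCard (Mem U) k n ∧ IsTwoPow (Mem U) l k ∧ PosRel (Mem U) l k := by
  have hμ : ℵ₀ < #Mu := (aleph0_le_Tw 0).trans_lt ((Tw_lt_succ 0).trans_le (Tw_le_Mu 1))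
  refine ⟨_, cl U (ordN (#Mu).ord), isOmega_omega U, isCard_omega U, isCard_ordN Cohen.ccc hμ U,
    ordN_mem (by rw [← ord_aleph0]; exact ord_lt_ord.2 hμ) U, fun n hn hwn hnm => ?_⟩
  have : ∀ x y : Name BB, Clopen fun U => IsSuccCard (Mem U) (cl U x) (cl U y) := by
    intro x y; unfold IsSuccCard; infer_instance
  have : ∀ x y : Name BB, Clopen fun U => IsTwoPow (Mem U) (cl U x) (cl U y) := by
    intro x y; unfold IsTwoPow; infer_instance
  have : ∀ x y : Name BB, Clopen fun U => PosRel (Mem U) (cl U x) (cl U y) := by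
    intro x y; unfold PosRel; infer_instance
  refine ord_ind (fun _ => True) (fun U n => IsCard (Mem U) n →
    Sub (Mem U) (cl U (ordN Ordinal.omega0)) n → ∃ k l, Mem U k (cl U (ordN (#Mu).ord)) ∧
      IsSuccCard (Mem U) k n ∧ IsTwoPow (Mem U) l k ∧ PosRel (Mem U) l k) trivial ?_ n hnm hn hwn
  intro ξ hξ W _ hc hw
  have h1 : ξ.card.ord = ξ := by
    refine (ord_card_le ξ).eq_or_lt.resolve_right fun h => ?_
    exact hc.2 _ (ordN_mem h W) (equinum_ordN (card_ord _) W)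
  have h2 : ℵ₀ ≤ ξ.card := by
    rw [Ordinal.aleph0_le_card]
    by_contra h
    exact mod_irrefl W _ (hw _ (ordN_mem (not_le.1 h) W))
  have h3 : Order.succ ξ.card < #Mu := succ_lt_Mu h2 (lt_ord.1 hξ)
  have h4 : ℵ₀ < (Order.succ ξ.card).ord.cof := by
    rw [(isRegular_succ h2).cof_ord]
    exact Order.lt_succ_of_le h2
  refine ⟨_, _, ordN_mem (ord_lt_ord.2 h3) W, ?_,
    main_twoPow (h2.trans (Order.le_succ _)) h3 W, main_posRel h4 h3 W⟩
  have := isSuccCard_ordN Cohen.ccc h2 W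
  rwa [h1] at this

end Pool.Agent.Lib.MP_5d9fac_lc
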