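import Mathlib

/-!
Models of ZFC and the strong polarized relation inside a model.

A structure for the language of set theory is a type `M` with a binary relation `E`
(`E x y` reads: x is an element of y).  Every notion below quantifies only over elements of `M`
and uses only `E` and equality, so it is the satisfaction in `(M, E)` of the usual
first-order formula of set theory.
-/

namespace Pool.Agent.Lib.MP_5d9fac_lc

open FirstOrder

universe u

/-- The first-order language of set theory: no function symbols, and exactly one relation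
symbol, of arity two. -/
def LSet : Language := ⟨fun _ => Empty, fun n => PLift (n = 2)⟩

variable {M : Type u} (E : M → M → Prop)

/-- `(M, E)` as a structure for the language of set theory. -/
@[reducible] def memStr : LSet.Structure M where
  funMap := fun f _ => Empty.elim f
  RelMap := fun r v => E (v (Fin.cast r.down.symm 0)) (v (Fin.cast r.down.symm 1))

/-- `a` is a subset of `b`. -/
def Sub (a b : M) : Prop := ∀ x, E x a → E x b

/-- `a` is the empty set. -/
def IsEmp (a : M) : Prop := ∀ x, ¬ E x a

/-- `s` is the successor `a ∪ {a}` of `a`. -/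
def IsSuc (s a : M) : Prop := ∀ x, E x s ↔ (E x a ∨ x = a)

/-- `w` is inductive: it contains the empty set and is closed under successor. -/
def IsInd (w : M) : Prop :=
  (∃ e, IsEmp E e ∧ E e w) ∧ ∀ a, E a w → ∃ s, IsSuc E s a ∧ E s w

/-- `c` is the unordered pair `{a, b}`. -/
def IsUPair (c a b : M) : Prop := ∀ x, E x c ↔ (x = a ∨ x = b)

/-- `P` is the power set of `a`. -/
def IsPow (P a : M) : Prop := ∀ x, E x P ↔ Sub E x a

/-- `(M, E)` is a model of ZFC.  Separation and Replacement are required for every subset of `M`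
(of `M × M`) that is first-order definable in `(M, E)` with parameters from `M`, which is what
satisfying all instances of the two schemes means. -/
structure IsZFC : Prop where
  extensionality : ∀ a b, (∀ x, E x a ↔ E x b) → a = b
  foundation : ∀ a, (∃ x, E x a) → ∃ x, E x a ∧ ∀ y, E y x → ¬ E y a
  pairing : ∀ a b, ∃ c, IsUPair E c a b
  union : ∀ a, ∃ c, ∀ x, E x c ↔ ∃ y, E y a ∧ E x y
  powerset : ∀ a, ∃ P, IsPow E P a
  infinity : ∃ w, IsInd E w
  separation : ∀ S : Set M, @Set.Definable₁ M Set.univ LSet (memStr E) S →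
    ∀ a, ∃ b, ∀ x, E x b ↔ (E x a ∧ x ∈ S)
  replacement : ∀ R : Set (M × M), @Set.Definable₂ M Set.univ LSet (memStr E) R →
    ∀ a, (∀ x, E x a → ∃! y, (x, y) ∈ R) → ∃ b, ∀ y, E y b ↔ ∃ x, E x a ∧ (x, y) ∈ R
  choice : ∀ a, (∀ x, E x a → ∃ y, E y x) →
    (∀ x x' y, E x a → E x' a → E y x → E y x' → x = x') →
    ∃ c, ∀ x, E x a → ∃! y, E y x ∧ E y c

/-- `p` is the Kuratowski ordered pair `{{a}, {a, b}}`. -/
def IsOPair (p a b : M) : Prop :=
  ∃ s t, IsUPair E s a a ∧ IsUPair E t a b ∧ IsUPair E p s t

/-- The ordered pair `(a, b)` is an element of `f`, that is `f(a) = b` when `f` is a function. -/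
def App (f a b : M) : Prop := ∃ p, IsOPair E p a b ∧ E p f

/-- `f` is a function from `A` to `B`. -/
def IsFun (f A B : M) : Prop :=
  (∀ p, E p f → ∃ a b, E a A ∧ E b B ∧ IsOPair E p a b) ∧ ∀ a, E a A → ∃! b, App E f a b

/-- `f` is a bijection from `A` onto `B`. -/
def IsBij (f A B : M) : Prop := IsFun E f A B ∧ ∀ b, E b B → ∃! a, App E f a b

/-- `|A| = |B|`: there is a bijection from `A` onto `B`. -/
def Equinum (A B : M) : Prop := ∃ f, IsBij E f A B

/-- `a` is a von Neumann ordinal: transitive and linearly ordered by membership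
(well-ordered, by Foundation). -/
def IsOrd (a : M) : Prop :=
  (∀ x, E x a → Sub E x a) ∧ ∀ x y, E x a → E y a → (E x y ∨ x = y ∨ E y x)

/-- `a` is a cardinal: an ordinal not equinumerous with a smaller ordinal. -/
def IsCard (a : M) : Prop := IsOrd E a ∧ ∀ b, E b a → ¬ Equinum E b a

/-- `w` is `ω = ℵ₀`, the least inductive set. -/
def IsOmega (w : M) : Prop := IsInd E w ∧ ∀ v, IsInd E v → Sub E w v

/-- `k = n⁺`: `n` is a cardinal and `k` is the least cardinal above `n`. -/
def IsSuccCard (k n : M) : Prop :=
  IsCard E n ∧ IsCard E k ∧ E n k ∧ ∀ t, IsCard E t → E n t → Sub E k t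

/-- `l = 2 ^ k`: `l` is the cardinal equinumerous with the power set of `k`. -/
def IsTwoPow (l k : M) : Prop := IsCard E l ∧ ∃ P, IsPow E P k ∧ Equinum E l P

/-- `P` is the cartesian product `A × B`. -/
def IsProd (P A B : M) : Prop := ∀ p, E p P ↔ ∃ a b, E a A ∧ E b B ∧ IsOPair E p a b

/-- `t` is the ordinal `2 = {0, 1}`. -/
def IsTwo (t : M) : Prop := ∃ z o, IsEmp E z ∧ IsSuc E o z ∧ IsSuc E t o

/-- The strong polarized relation for `(l, k)` with two colours: for every function
`c : l × k → 2` there are `A ⊆ l` with `|A| = l` and `B ⊆ k` with `|B| = k`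
such that `c` is constant on `A × B`. -/
def PosRel (l k : M) : Prop :=
  ∀ P t c, IsProd E P l k → IsTwo E t → IsFun E c P t →
    ∃ A B i, Sub E A l ∧ Sub E B k ∧ Equinum E A l ∧ Equinum E B k ∧
      ∀ a b p, E a A → E b B → IsOPair E p a b → App E c p i

end Pool.Agent.Lib.MP_5d9fac_lc
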