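import Pool.Agent.Lib.MP_5d9fac_lc.Axioms
import Pool.Agent.Lib.MP_5d9fac_lc.BoolComb

/-!
Functions, bijections and cardinals in the quotient models.
-/

namespace Pool.Agent.Lib.MP_5d9fac_lc

open Cardinal

universe u v

section General

variable {M : Type v} {E : M → M → Prop}

theorem upair_unique (hext : ∀ a b, (∀ x, E x a ↔ E x b) → a = b) {c c' a b : M}
    (h : IsUPair E c a b) (h' : IsUPair E c' a b) : c = c' :=
  hext _ _ fun x => (h x).trans (h' x).symm

theorem opair_unique (hext : ∀ a b, (∀ x, E x a ↔ E x b) → a = b) {p p' a b : M}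
    (h : IsOPair E p a b) (h' : IsOPair E p' a b) : p = p' := by
  obtain ⟨s, t, hs, ht, hp⟩ := h
  obtain ⟨s', t', hs', ht', hp'⟩ := h'
  obtain rfl := upair_unique hext hs hs'
  obtain rfl := upair_unique hext ht ht'
  exact upair_unique hext hp hp'

theorem opair_inj {p a b a' b' : M}
    (h : IsOPair E p a b) (h' : IsOPair E p a' b') : a = a' ∧ b = b' := by
  obtain ⟨s, t, hs, ht, hp⟩ := h
  obtain ⟨s', t', hs', ht', hp'⟩ := h'
  have h1 : s = s' ∨ s = t' := (hp' s).1 ((hp s).2 (Or.inl rfl))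
  have h2 : t = s' ∨ t = t' := (hp' t).1 ((hp t).2 (Or.inr rfl))
  have h3 : t' = s ∨ t' = t := (hp t').1 ((hp' t').2 (Or.inr rfl))
  have haa : a = a' := by
    rcases h1 with rfl | rfl
    · simpa using (hs' a).1 ((hs a).2 (Or.inl rfl))
    · have := (hs a').1 ((ht' a').2 (Or.inl rfl))
      simpa [eq_comm] using this
  subst haa
  refine ⟨rfl, ?_⟩
  have h4 : b = a ∨ b = b' := by
    rcases h2 with rfl | rfl
    · have := (hs' b).1 ((ht b).2 (Or.inr rfl))
      tauto
    · exact (ht' b).1 ((ht b).2 (Or.inr rfl))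
  have h5 : b' = a ∨ b' = b := by
    rcases h3 with rfl | rfl
    · have := (hs b').1 ((ht' b').2 (Or.inr rfl))
      tauto
    · exact (ht b').1 ((ht' b').2 (Or.inr rfl))
  rcases h4 with h4 | h4
  · rcases h5 with h5 | h5
    · rw [h4, h5]
    · exact h5.symm
  · exact h4

theorem IsFun.app_mem {f A B a b : M} (hf : IsFun E f A B) (h : App E f a b) :
    E a A ∧ E b B := by
  obtain ⟨p, hp, hpf⟩ := h
  obtain ⟨a', b', ha, hb, hp'⟩ := hf.1 p hpf
  obtain ⟨rfl, rfl⟩ := opair_inj hp hp'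
  exact ⟨ha, hb⟩

theorem IsFun.app_unique {f A B a b b' : M} (hf : IsFun E f A B) (h : App E f a b)
    (h' : App E f a b') : b = b' :=
  (hf.2 a (hf.app_mem h).1).unique h h'

theorem IsBij.app_inj {f A B a a' b : M} (hf : IsBij E f A B) (h : App E f a b)
    (h' : App E f a' b) : a = a' :=
  (hf.2 b (hf.1.app_mem h).2).unique h h'

end General

variable {B : Type u} [CompleteBooleanAlgebra B]

/-- name of an ordered pair -/
def opairN (x y : Name B) : Name B := upairN (upairN x x) (upairN x y)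

theorem isOPair_opairN (U : Ult B) (x y : Name B) :
    IsOPair (Mem U) (cl U (opairN x y)) (cl U x) (cl U y) :=
  ⟨_, _, isUPair_upairN U x x, isUPair_upairN U x y, isUPair_upairN U _ _⟩

/-- name of a relation given by a Boolean matrix -/
def relN {I J : Type u} (x : I → Name B) (y : J → Name B) (h : I → J → B) : Name B :=
  Name.mk (I × J) (fun s => opairN (x s.1) (y s.2)) fun s => h s.1 s.2

section Rel

variable {I J : Type u} {x : I → Name B} {y : J → Name B} {h : I → J → B}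

theorem app_relN {U : Ult B} {i : I} {j : J} (hij : U.In (h i j)) :
    App (Mem U) (cl U (relN x y h)) (cl U (x i)) (cl U (y j)) :=
  ⟨_, isOPair_opairN U _ _, mem_mk (A := fun s : I × J => opairN (x s.1) (y s.2))
    (v := fun s => h s.1 s.2) (i, j) hij⟩

theorem app_relN_ind (P : Ult B → Prop) [Clopen P] (Q : ∀ U : Ult B, Mod U → Mod U → Prop)
    [∀ n m : Name B, Clopen fun U => Q U (cl U n) (cl U m)] {U : Ult B} (hp : P U)
    (H : ∀ i j (W : Ult B), P W → W.In (h i j) → Q W (cl W (x i)) (cl W (y j))) :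
    ∀ a b, App (Mem U) (cl U (relN x y h)) a b → Q U a b := by
  rintro a b ⟨p, hp1, hp2⟩
  refine mem_mk_ind P (fun U p => ∀ a b, IsOPair (Mem U) p a b → Q U a b) hp ?_ p hp2 a b hp1
  rintro ⟨i, j⟩ W hW hij a b hab
  obtain ⟨rfl, rfl⟩ := opair_inj hab (isOPair_opairN W _ _)
  exact H i j W hW hij

theorem isBij_relN (P : Ult B → Prop) [Clopen P] {X Y : Name B} {U : Ult B} (hp : P U)
    (h1 : ∀ i j (W : Ult B), P W → W.In (h i j) →
      Mem W (cl W (x i)) (cl W X) ∧ Mem W (cl W (y j)) (cl W Y))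
    (h2 : ∀ a, Mem U a (cl U X) → ∃ b, App (Mem U) (cl U (relN x y h)) a b)
    (h3 : ∀ b, Mem U b (cl U Y) → ∃ a, App (Mem U) (cl U (relN x y h)) a b)
    (h4 : ∀ i j i' j' (W : Ult B), P W → W.In (h i j) → W.In (h i' j') →
      (cl W (x i) = cl W (x i') ↔ cl W (y j) = cl W (y j'))) :
    IsBij (Mem U) (cl U (relN x y h)) (cl U X) (cl U Y) := by
  have key : ∀ a b, App (Mem U) (cl U (relN x y h)) a b →
      ∀ a' b', App (Mem U) (cl U (relN x y h)) a' b' → (a = a' ↔ b = b') := by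
    refine app_relN_ind P (fun U a b =>
      ∀ a' b', App (Mem U) (cl U (relN x y h)) a' b' → (a = a' ↔ b = b')) hp ?_
    intro i j W hW hij
    refine app_relN_ind (fun W => P W ∧ W.In (h i j)) (fun U a' b' =>
      (cl U (x i) = a' ↔ cl U (y j) = b')) ⟨hW, hij⟩ ?_
    rintro i' j' W ⟨hW, hij⟩ hij'
    exact h4 i j i' j' W hW hij hij'
  refine ⟨⟨?_, fun a ha => ?_⟩, fun b hb => ?_⟩
  · refine mem_mk_ind P (fun U p => ∃ a b, Mem U a (cl U X) ∧ Mem U b (cl U Y) ∧
      IsOPair (Mem U) p a b) hp ?_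
    rintro ⟨i, j⟩ W hW hij
    exact ⟨_, _, (h1 i j W hW hij).1, (h1 i j W hW hij).2, isOPair_opairN W _ _⟩
  · exact existsUnique_of_exists_of_unique (h2 a ha) fun b b' hb hb' =>
      (key a b hb a b' hb').1 rfl
  · exact existsUnique_of_exists_of_unique (h3 b hb) fun a a' ha ha' =>
      (key a b ha a' b ha').2 rfl

end Rel

/-- the name of the ordinal coded by an element of `o.ToType` -/
noncomputable def oN {o : Ordinal.{u}} (i : o.ToType) : Name B := ordN i.toOrd.1

theorem oN_mem {o : Ordinal.{u}} (i : o.ToType) (U : Ult B) :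
    Mem U (cl U (oN i)) (cl U (ordN o)) := ordN_mem i.toOrd.2 U

theorem oN_inj {o : Ordinal.{u}} {i j : o.ToType} {U : Ult B}
    (h : cl U (oN i) = cl U (oN j)) : i = j :=
  Ordinal.ToType.mk.symm.injective (Subtype.ext (ordN_inj h))

theorem oN_ind (P : Ult B → Prop) [Clopen P] (Q : ∀ U : Ult B, Mod U → Prop)
    [∀ n : Name B, Clopen fun U => Q U (cl U n)] {o : Ordinal.{u}} {U : Ult B}
    (hp : P U) (H : ∀ i : o.ToType, ∀ W : Ult B, P W → Q W (cl W (oN i))) :
    ∀ z, Mem U z (cl U (ordN o)) → Q U z := by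
  refine ord_ind P Q hp fun a ha W hW => ?_
  have := H (Ordinal.ToType.mk ⟨a, ha⟩) W hW
  simpa [oN] using this

theorem exists_oN (P : Ult B → Prop) [Clopen P] {n : Name B} {o : Ordinal.{u}} {U : Ult B}
    (hp : P U) (h : Mem U (cl U n) (cl U (ordN o))) :
    ∃ i : o.ToType, ∃ W : Ult B, P W ∧ cl W n = cl W (oN i) := by
  by_contra hc
  push Not at hc
  exact oN_ind P (fun U z => cl U n ≠ z) hp hc _ h rfl

/-- the subset of an ordinal with given weights -/
noncomputable def setN {o : Ordinal.{u}} (a : o.ToType → B) : Name B := Name.mk o.ToType oN a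

theorem setN_sub {o : Ordinal.{u}} (a : o.ToType → B) (U : Ult B) :
    Sub (Mem U) (cl U (setN a)) (cl U (ordN o)) :=
  mem_mk_ind (fun _ => True) (fun U z => Mem U z (cl U (ordN o))) trivial fun i W _ _ =>
    oN_mem i W

theorem mem_setN {o : Ordinal.{u}} (a : o.ToType → B) (U : Ult B) (i : o.ToType) :
    Mem U (cl U (oN i)) (cl U (setN a)) ↔ U.In (a i) := by
  refine ⟨fun h => ?_, fun h => mem_mk (A := oN) i h⟩
  refine mem_mk_ind (fun _ => True) (fun U z => z = cl U (oN i) → U.In (a i)) trivial ?_ _ h rfl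
  intro j W _ hj hij
  rwa [← oN_inj hij]

theorem eq_setN {o : Ordinal.{u}} (n : Name B) (U : Ult B)
    (h : Sub (Mem U) (cl U n) (cl U (ordN o))) :
    cl U n = cl U (setN fun i : o.ToType => Name.bmem (oN i) n) := by
  refine mod_ext U _ _ fun z => ⟨fun hz => ?_, ?_⟩
  · refine oN_ind (fun _ => True) (fun U z => Mem U z (cl U n) →
      Mem U z (cl U (setN fun i : o.ToType => Name.bmem (oN i) n))) trivial ?_ z (h z hz) hz
    intro i W _ hi
    exact (mem_setN _ W i).2 hi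
  · exact mem_mk_ind (fun _ => True) (fun U z => Mem U z (cl U n)) trivial
      (fun i W _ hi => hi) z

theorem mk_Iio_ord_lt {θ : Cardinal.{u}} (i : θ.ord.ToType) : #(Set.Iio i) < θ := by
  simpa using mk_Iio_lt i

/-- A subset of an uncountable cardinal that is forced to be large has full size. -/
theorem equinum_setN (hB : CCC B) {θ : Cardinal.{u}} (hθ : ℵ₀ < θ) (a : θ.ord.ToType → B) {q : B}
    (hq : Large θ a q) {U : Ult B} (hU : U.In q) :
    Equinum (Mem U) (cl U (setN a)) (cl U (ordN θ.ord)) := by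
  refine ⟨_, isBij_relN (x := oN) (y := oN) (h := fun α γ => enumB a γ α)
    (fun U => U.In q) hU ?_ ?_ ?_ ?_⟩
  · intro α γ W _ h
    exact ⟨(mem_setN a W α).2 (W.mono (enumB_le a γ α) h), oN_mem γ W⟩
  · refine mem_mk_ind (fun _ => True) (fun U z => ∃ b, App (Mem U)
      (cl U (relN oN oN fun α γ => enumB a γ α)) z b) trivial ?_
    intro α W _ hα
    refine iSup_elim (fun _ => True) (fun U => ∃ b, App (Mem U)
      (cl U (relN oN oN fun α γ => enumB a γ α)) (cl U (oN α)) b)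
      (W.mono (enumB_surj a α) hα) trivial ?_
    intro γ W _ h
    exact ⟨_, app_relN (h := fun α γ => enumB a γ α) h⟩
  · refine oN_ind (fun U => U.In q) (fun U z => ∃ b, App (Mem U)
      (cl U (relN oN oN fun α γ => enumB a γ α)) b z) hU ?_
    intro γ W hW
    refine iSup_elim (fun _ => True) (fun U => ∃ b, App (Mem U)
      (cl U (relN oN oN fun α γ => enumB a γ α)) b (cl U (oN γ)))
      (W.mono (enumB_total hB hθ mk_Iio_ord_lt a hq γ) hW) trivial ?_
    intro α W _ h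
    exact ⟨_, app_relN (h := fun α γ => enumB a γ α) h⟩
  · intro α γ α' γ' W _ h h'
    constructor
    · intro e
      obtain rfl := oN_inj e
      by_cases hγ : γ = γ'
      · rw [hγ]
      · exact (W.ne_bot (W.inf h h') (enumB_inj a γ γ' α hγ)).elim
    · intro e
      obtain rfl := oN_inj e
      by_cases hα : α = α'
      · rw [hα]
      · exact (W.ne_bot (W.inf h h') (enumB_fun a γ α α' hα)).elim

/-- A bijection of the ground universe gives a bijection in the model. -/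
theorem equinum_ordN {a b : Ordinal.{u}} (h : a.card = b.card) (U : Ult B) :
    Equinum (Mem U) (cl U (ordN a)) (cl U (ordN b)) := by
  classical
  obtain ⟨e⟩ : Nonempty (a.ToType ≃ b.ToType) := by
    rw [← Cardinal.eq, mk_toType, mk_toType, h]
  have hin : ∀ (W : Ult B) (i : a.ToType) (j : b.ToType),
      W.In (if e i = j then (⊤ : B) else ⊥) ↔ e i = j := by
    intro W i j
    by_cases hij : e i = j
    · simp [hij, W.top]
    · simp [hij, W.not_bot]
  refine ⟨_, isBij_relN (x := oN) (y := oN) (h := fun i j => if e i = j then (⊤ : B) else ⊥)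
    (fun _ => True) trivial ?_ ?_ ?_ ?_⟩
  · intro i j W _ _
    exact ⟨oN_mem i W, oN_mem j W⟩
  · refine oN_ind (fun _ => True) (fun U z => ∃ b, App (Mem U)
      (cl U (relN oN oN fun i j => if e i = j then (⊤ : B) else ⊥)) z b) trivial ?_
    intro i W _
    exact ⟨_, app_relN (h := fun i j => if e i = j then (⊤ : B) else ⊥)
      ((hin W i (e i)).2 rfl)⟩
  · refine oN_ind (fun _ => True) (fun U z => ∃ b, App (Mem U)
      (cl U (relN oN oN fun i j => if e i = j then (⊤ : B) else ⊥)) b z) trivial ?_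
    intro j W _
    exact ⟨_, app_relN (h := fun i j => if e i = j then (⊤ : B) else ⊥)
      ((hin W (e.symm j) j).2 (by simp))⟩
  · intro i j i' j' W _ h h'
    rw [hin] at h h'
    subst h h'
    constructor
    · intro e1
      rw [oN_inj e1]
    · intro e1
      rw [e.injective (oN_inj e1)]

/-- Uncountable cardinals are preserved. -/
theorem isCard_ordN (hB : CCC B) {θ : Cardinal.{u}} (hθ : ℵ₀ < θ) (U : Ult B) :
    IsCard (Mem U) (cl U (ordN θ.ord)) := by
  refine ⟨isOrd_ordN _ U, ?_⟩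
  refine ord_ind (fun _ => True) (fun U b => ¬ Equinum (Mem U) b (cl U (ordN θ.ord))) trivial ?_
  rintro ξ hξ W - ⟨f, hf⟩
  obtain ⟨f, rfl⟩ := cl_surj W f
  let P : Ult B → Prop := fun U => IsBij (Mem U) (cl U f) (cl U (ordN ξ)) (cl U (ordN θ.ord))
  have hPc : Clopen P := by unfold P; infer_instance
  let g : ξ.ToType → θ.ord.ToType → B := fun β α =>
    bv fun U => P U ∧ App (Mem U) (cl U f) (cl U (oN β)) (cl U (oN α))
  have hg : ∀ β α (U : Ult B), U.In (g β α) ↔
      P U ∧ App (Mem U) (cl U f) (cl U (oN β)) (cl U (oN α)) := fun β α U => in_bv _ U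
  have h1 : ∀ β, {α | g β α ≠ ⊥}.Countable := fun β => hB _ _ fun α α' hne =>
    Ult.eq_bot_of fun U hU => by
      rw [U.inf_iff, hg, hg] at hU
      exact hne (oN_inj (hU.1.1.1.app_unique hU.1.2 hU.2.2))
  have h2 := mk_iUnion_lt_of_countable hθ _ (by rwa [mk_toType, ← lt_ord]) h1
  conv_rhs at h2 => rw [← mk_ord_toType θ, ← mk_univ]
  obtain ⟨α, -, hα⟩ := exists_not_mem_of_lt h2
  obtain ⟨b, hb, -⟩ := hf.2 _ (oN_mem α W)
  obtain ⟨b, rfl⟩ := cl_surj W b
  obtain ⟨β, V, hV, e⟩ := exists_oN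
    (fun U => P U ∧ App (Mem U) (cl U f) (cl U b) (cl U (oN α))) ⟨hf, hb⟩ (hf.1.app_mem hb).1
  rw [e] at hV
  exact hα (Set.mem_iUnion.2 ⟨β, V.ne_bot ((hg β α V).2 hV)⟩)

theorem exists_oN_finite {o : Ordinal.{u}} (ho : o < Ordinal.omega0) {U : Ult B} (z : Mod U)
    (hz : Mem U z (cl U (ordN o))) : ∃ i : o.ToType, z = cl U (oN i) := by
  obtain ⟨n, rfl⟩ := cl_surj U z
  have : Finite o.ToType := by
    rw [← lt_aleph0_iff_finite, mk_toType]
    exact Ordinal.card_lt_aleph0.2 ho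
  have h1 : U.In (⨆ i : o.ToType, Name.beq n (oN i)) := by
    refine oN_ind (fun _ => True)
      (fun U z => cl U n = z → U.In (⨆ i : o.ToType, Name.beq n (oN i))) trivial ?_ _ hz rfl
    intro i W _ e
    exact W.iSup_intro i ((cl_eq _ _ _).1 e)
  obtain ⟨i, hi⟩ := U.iSup_finite h1
  exact ⟨i, (cl_eq _ _ _).2 hi⟩

theorem isCard_omega (U : Ult B) : IsCard (Mem U) (cl U (ordN Ordinal.omega0)) := by
  refine ⟨isOrd_ordN _ U, ?_⟩
  refine ord_ind (fun _ => True)
    (fun U b => ¬ Equinum (Mem U) b (cl U (ordN Ordinal.omega0))) trivial ?_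
  rintro ξ hξ W - ⟨f, hf⟩
  have h1 : ∀ α : Ordinal.omega0.{u}.ToType, ∃ β : ξ.ToType,
      App (Mem W) f (cl W (oN β)) (cl W (oN α)) := by
    intro α
    obtain ⟨b, hb, -⟩ := hf.2 _ (oN_mem α W)
    obtain ⟨β, rfl⟩ := exists_oN_finite hξ b (hf.1.app_mem hb).1
    exact ⟨β, hb⟩
  choose g hg using h1
  have h2 : Function.Injective g := by
    intro α α' e
    have h3 := hg α
    rw [e] at h3
    exact oN_inj (hf.1.app_unique h3 (hg α'))
  have h4 := mk_le_of_injective h2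
  rw [mk_toType, mk_toType, Ordinal.card_omega0] at h4
  exact h4.not_gt (Ordinal.card_lt_aleph0.2 hξ)

theorem isCard_ordN' (hB : CCC B) {θ : Cardinal.{u}} (hθ : ℵ₀ ≤ θ) (U : Ult B) :
    IsCard (Mem U) (cl U (ordN θ.ord)) := by
  rcases hθ.lt_or_eq with h | h
  · exact isCard_ordN hB h U
  · rw [← h, ord_aleph0]
    exact isCard_omega U

/-- comparison of an arbitrary ordinal of the model with a canonical one -/
theorem sub_or_mem (o : Ordinal.{u}) {U : Ult B} (t : Mod U) (ht : IsOrd (Mem U) t) :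
    Sub (Mem U) (cl U (ordN o)) t ∨ Mem U t (cl U (ordN o)) := by
  obtain ⟨t, rfl⟩ := cl_surj U t
  by_contra hc
  push Not at hc
  obtain ⟨hc1, hc2⟩ := hc
  have ho := isOrd_ordN o U
  have hne : ∃ x, Mem U x (cl U (sepN (fun U x => ¬ Mem U x (cl U t)) (ordN o))) := by
    by_contra h
    apply hc1
    intro x hx
    by_contra h1
    exact h ⟨x, (mem_sepN _ _ U x).2 ⟨hx, h1⟩⟩
  obtain ⟨x, hx, hmin⟩ := mod_found U _ hne
  rw [mem_sepN] at hx
  have hxt : Sub (Mem U) x (cl U t) := by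
    intro y hy
    by_contra h1
    exact hmin y hy ((mem_sepN _ _ U y).2 ⟨ho.1 x hx.1 y hy, h1⟩)
  obtain ⟨x, rfl⟩ := cl_surj U x
  by_cases hne2 : ∃ y, Mem U y (cl U (sepN (fun U y => ¬ Mem U y (cl U x)) t))
  · obtain ⟨y, hy, hmin2⟩ := mod_found U _ hne2
    rw [mem_sepN] at hy
    have : y = cl U x := by
      refine mod_ext U _ _ fun z => ⟨fun hz => ?_, fun hz => ?_⟩
      · by_contra h1
        exact hmin2 z hz ((mem_sepN _ _ U z).2 ⟨ht.1 y hy.1 z hz, h1⟩)
      · rcases ht.2 z y (hxt z hz) hy.1 with h | h | h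
        · exact h
        · exact (hy.2 (h ▸ hz)).elim
        · have hzo : Mem U z (cl U (ordN o)) := ho.1 _ hx.1 z hz
          have hyo : Mem U y (cl U (ordN o)) := ho.1 _ hzo y h
          rcases ho.2 y _ hyo hx.1 with h1 | h1 | h1
          · exact (hy.2 h1).elim
          · exact (hx.2 (h1 ▸ hy.1)).elim
          · exact (hx.2 (ht.1 y hy.1 _ h1)).elim
    exact hx.2 (this ▸ hy.1)
  · have : cl U t = cl U x := by
      refine mod_ext U _ _ fun z => ⟨fun hz => ?_, hxt z⟩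
      by_contra h1
      exact hne2 ⟨z, (mem_sepN _ _ U z).2 ⟨hz, h1⟩⟩
    exact hc2 (this ▸ hx.1)

/-- Successor cardinals are preserved. -/
theorem isSuccCard_ordN (hB : CCC B) {ν : Cardinal.{u}} (hν : ℵ₀ ≤ ν) (U : Ult B) :
    IsSuccCard (Mem U) (cl U (ordN (Order.succ ν).ord)) (cl U (ordN ν.ord)) := by
  refine ⟨isCard_ordN' hB hν U, isCard_ordN' hB (hν.trans (Order.le_succ ν)) U,
    ordN_mem (ord_lt_ord.2 (Order.lt_succ ν)) U, fun t ht hνt => ?_⟩
  refine (sub_or_mem _ t ht.1).resolve_right fun h => ?_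
  refine ord_ind (fun _ => True)
    (fun U t => IsCard (Mem U) t → ¬ Mem U (cl U (ordN ν.ord)) t) trivial ?_ t h ht hνt
  intro ξ hξ W _ hc hm
  refine hc.2 _ hm (equinum_ordN ?_ W)
  rw [ordN_mem_iff] at hm
  rw [card_ord]
  exact le_antisymm (ord_le.1 hm.le) (Order.lt_succ_iff.1 (lt_ord.1 hξ))

/-- The size of the power set. -/
theorem isTwoPow_ordN (hB : CCC B) {θ : Cardinal.{u}} (hθ : ℵ₀ < θ) {o : Ordinal.{u}}
    (hup : #(o.ToType → B) ≤ θ) {S : Type u} (hS : θ ≤ #S) (X : S → o.ToType → B)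
    (hX : ∀ s t, s ≠ t → ∀ q : B, q ≠ ⊥ → ∃ i, q ⊓ X s i ⊓ (X t i)ᶜ ≠ ⊥) (U : Ult B) :
    IsTwoPow (Mem U) (cl U (ordN θ.ord)) (cl U (ordN o)) := by
  refine ⟨isCard_ordN hB hθ U, _, isPow_powN _ U, ?_⟩
  obtain ⟨G, hG⟩ : ∃ G : θ.ord.ToType → (o.ToType → B), Function.Surjective G := by
    rw [← mk_ord_toType θ] at hup
    obtain ⟨e⟩ := (le_def _ _).1 hup
    exact ⟨Function.invFun e, Function.invFun_surjective e.injective⟩
  let a : θ.ord.ToType → B := fun m =>
    (⨆ m', ⨆ _ : m' < m, Name.beq (setN (G m')) (setN (G m)))ᶜ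
  have hleast : ∀ (m : θ.ord.ToType) (W : Ult B), W.In (⨆ m', a m' ⊓
      Name.beq (setN (G m')) (setN (G m))) := by
    intro m W
    have h1 : W.In (⨆ m', Name.beq (setN (G m')) (setN (G m))) :=
      W.iSup_intro m (by rw [Name.beq_refl]; exact W.top)
    rw [iSup_eq_iSup_least] at h1
    refine W.iSup_elim h1 W.top fun m' W _ h2 => W.iSup_intro m' ?_
    rw [W.inf_iff, W.compl_iff] at h2
    refine W.inf (W.compl_iff.2 fun h3 => h2.2 ?_) h2.1
    refine W.iSup_elim h3 h2.1 fun k W h5 h6 => ?_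
    refine W.iSup_elim h6 h5 fun hk W h5 h6 => ?_
    exact W.iSup_intro k (W.iSup_intro hk (W.mono (Name.beq_trans _ _ _) (W.inf h6 h5)))
  have hlarge : Large θ a ⊤ := by
    intro r _ hr
    by_contra hc
    have h1 : ∀ m, {s | Name.beq (setN (G m)) (setN (X s)) ≠ ⊥}.Countable := by
      intro m
      refine hB _ _ fun s t hst => ?_
      by_contra hq
      obtain ⟨i, hi⟩ := hX s t hst _ hq
      obtain ⟨W, hW⟩ := Ult.exists_of_ne_bot hi
      rw [W.inf_iff, W.inf_iff, W.inf_iff, W.compl_iff, ← cl_eq, ← cl_eq, ← mem_setN,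
        ← mem_setN, ← hW.1.1.1, ← hW.1.1.2] at hW
      exact hW.2 hW.1.2
    have h2 := mk_iUnion_lt_of_countable hθ _ (not_le.1 hc)
      fun m : {i | r ⊓ a i ≠ ⊥} => h1 m
    have h3 := h2.trans_le hS
    rw [← mk_univ (α := S)] at h3
    obtain ⟨s, -, hs⟩ := exists_not_mem_of_lt h3
    obtain ⟨m, hm⟩ := hG (X s)
    obtain ⟨W, hW⟩ := Ult.exists_of_ne_bot hr
    obtain ⟨m', V, h4, h5⟩ := W.exists_iSup (hleast m W) hW
    rw [V.inf_iff, hm] at h5
    exact hs (Set.mem_iUnion.2 ⟨⟨m', V.ne_bot (V.inf h4 h5.1)⟩, V.ne_bot h5.2⟩)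
  refine ⟨_, isBij_relN (x := oN) (y := fun m => setN (G m)) (h := enumB a)
    (fun _ => True) trivial ?_ ?_ ?_ ?_⟩
  · intro γ m W _ _
    exact ⟨oN_mem γ W, (isPow_powN _ W _).2 (setN_sub _ W)⟩
  · refine oN_ind (fun _ => True) (fun U z => ∃ b, App (Mem U)
      (cl U (relN oN (fun m => setN (G m)) (enumB a))) z b) trivial ?_
    intro γ W _
    refine iSup_elim (fun _ => True) (fun U => ∃ b, App (Mem U)
      (cl U (relN oN (fun m => setN (G m)) (enumB a))) (cl U (oN γ)) b)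
      (W.mono (enumB_total hB hθ mk_Iio_ord_lt a hlarge γ) W.top) trivial ?_
    intro m W _ h
    exact ⟨_, app_relN (y := fun m => setN (G m)) h⟩
  · intro b hb
    obtain ⟨n, rfl⟩ := cl_surj U b
    rw [eq_setN n U ((isPow_powN _ U _).1 hb)]
    obtain ⟨m, hm⟩ := hG fun i : o.ToType => Name.bmem (oN i) n
    rw [← hm]
    refine iSup_elim (fun _ => True) (fun U => ∃ b, App (Mem U)
      (cl U (relN oN (fun m => setN (G m)) (enumB a))) b (cl U (setN (G m))))
      (hleast m U) trivial ?_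
    intro m' W _ h
    rw [W.inf_iff, ← cl_eq] at h
    refine iSup_elim (fun W => cl W (setN (G m')) = cl W (setN (G m))) (fun U => ∃ b, App (Mem U)
      (cl U (relN oN (fun m => setN (G m)) (enumB a))) b (cl U (setN (G m))))
      (W.mono (enumB_surj a m') h.1) h.2 ?_
    intro γ W e h
    rw [← e]
    exact ⟨_, app_relN (y := fun m => setN (G m)) h⟩
  · intro γ m γ' m' W _ h h'
    constructor
    · intro e
      obtain rfl := oN_inj e
      by_cases hm : m = m'
      · rw [hm]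
      · exact (W.ne_bot (W.inf h h') (enumB_fun a γ m m' hm)).elim
    · intro e
      have hm : m = m' := by
        rcases lt_trichotomy m m' with h1 | h1 | h1
        · exact (W.compl_iff.1 (W.mono (enumB_le a _ _) h')
            (W.iSup_intro m (W.iSup_intro h1 ((cl_eq _ _ _).1 e)))).elim
        · exact h1
        · exact (W.compl_iff.1 (W.mono (enumB_le a _ _) h)
            (W.iSup_intro m' (W.iSup_intro h1 ((cl_eq _ _ _).1 e.symm)))).elim
      subst hm
      by_cases hγ : γ = γ'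
      · rw [hγ]
      · exact (W.ne_bot (W.inf h h') (enumB_inj a γ γ' m hγ)).elim

/-- The strong polarized relation. -/
theorem posRel_ordN (hB : CCC B) {κ l : Cardinal.{u}} {T : ℕ → Type u} (ι : ∀ n, T n → B)
    (hι : ∀ b : B, b ≠ ⊥ → ∃ n t, ι n t ≠ ⊥ ∧ ι n t ≤ b)
    (hK : ℵ₀ < κ.ord.cof) (hL0 : ℵ₀ < l.ord.cof)
    (hL : #((Σ n, κ.ord.ToType → Set (T n)) × Bool) < l.ord.cof) (U : Ult B) :
    PosRel (Mem U) (cl U (ordN l.ord)) (cl U (ordN κ.ord)) := by
  intro P t c hP ht hc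
  obtain ⟨P, rfl⟩ := cl_surj U P
  obtain ⟨t, rfl⟩ := cl_surj U t
  obtain ⟨c, rfl⟩ := cl_surj U c
  let H : Ult B → Prop := fun U => IsProd (Mem U) (cl U P) (cl U (ordN l.ord))
    (cl U (ordN κ.ord)) ∧ IsTwo (Mem U) (cl U t) ∧ IsFun (Mem U) (cl U c) (cl U P) (cl U t)
  have hHc : Clopen H := by unfold H; infer_instance
  refine dense_elim (fun U => ∃ A B i, Sub (Mem U) A (cl U (ordN l.ord)) ∧
    Sub (Mem U) B (cl U (ordN κ.ord)) ∧ Equinum (Mem U) A (cl U (ordN l.ord)) ∧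
    Equinum (Mem U) B (cl U (ordN κ.ord)) ∧ ∀ a b p, Mem U a A → Mem U b B →
      IsOPair (Mem U) p a b → App (Mem U) (cl U c) p i) ((in_bv H U).2 ⟨hP, ht, hc⟩) ?_
  intro p hpH hp
  let z : l.ord.ToType → κ.ord.ToType → B := fun α ξ =>
    bv fun U => App (Mem U) (cl U c) (cl U (opairN (oN α) (oN ξ))) (cl U (ordN 0))
  have hz : ∀ α ξ (U : Ult B), U.In (z α ξ) ↔
      App (Mem U) (cl U c) (cl U (opairN (oN α) (oN ξ))) (cl U (ordN 0)) := fun α ξ U => in_bv _ U
  obtain ⟨q, hqp, hq, a, y, i, ha, hy, hay⟩ := exists_rectangle hB (K := κ.ord.ToType)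
    (L := l.ord.ToType) ι hι (by rwa [mk_ord_toType]) (by rwa [mk_ord_toType])
    (by rwa [mk_ord_toType]) (fun i α ξ => cond i (z α ξ) (z α ξ)ᶜ) (by simp) hp
  rw [mk_ord_toType] at ha hy
  obtain ⟨W, hW⟩ := Ult.exists_of_ne_bot hq
  refine ⟨W, W.mono hqp hW, cl W (setN a), cl W (setN y), cl W (ordN (cond i 0 1)),
    setN_sub a W, setN_sub y W,
    equinum_setN hB (hL0.trans_le (Ordinal.cof_ord_le _)) a ha hW,
    equinum_setN hB (hK.trans_le (Ordinal.cof_ord_le _)) y hy hW, ?_⟩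
  have hWH : H W := (in_bv H W).1 (W.mono (hqp.trans hpH) hW)
  intro a' b' p' ha' hb' hp'
  refine mem_mk_ind H (fun U a' => ∀ b', Mem U b' (cl U (setN y)) → ∀ p',
    IsOPair (Mem U) p' a' b' → App (Mem U) (cl U c) p' (cl U (ordN (cond i 0 1)))) hWH ?_
    a' ha' b' hb' p' hp'
  intro α V hV hα
  refine mem_mk_ind (fun V => H V ∧ V.In (a α)) (fun U b' => ∀ p',
    IsOPair (Mem U) p' (cl U (oN α)) b' → App (Mem U) (cl U c) p' (cl U (ordN (cond i 0 1))))
    ⟨hV, hα⟩ ?_
  rintro ξ V ⟨hV, hα⟩ hξ p' hp'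
  rw [opair_unique (mod_ext V) hp' (isOPair_opairN V _ _)]
  have h1 := V.mono (hay α ξ) (V.inf hα hξ)
  cases i with
  | true => exact (hz α ξ V).1 h1
  | false =>
    have h2 : ¬ App (Mem V) (cl V c) (cl V (opairN (oN α) (oN ξ))) (cl V (ordN 0)) :=
      fun h => V.compl_iff.1 h1 ((hz α ξ V).2 h)
    obtain ⟨hP, ⟨z0, z1, e0, e1, e2⟩, hc⟩ := hV
    obtain ⟨v, hv, -⟩ := hc.2 _ ((hP _).2 ⟨_, _, oN_mem α V, oN_mem ξ V, isOPair_opairN V _ _⟩)
    have f0 : z0 = cl V (ordN 0) := mod_ext V _ _ fun x =>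
      ⟨fun h => (e0 x h).elim, fun h => (isEmp_ordN V x h).elim⟩
    have f1 : z1 = cl V (ordN 1) := mod_ext V _ _ fun x => by
      have := isSuc_ordN 0 V x
      rw [zero_add] at this
      rw [e1 x, this, f0]
    rcases (e2 v).1 (hc.app_mem hv).2 with h3 | h3
    · rcases (e1 v).1 h3 with h4 | h4
      · exact (e0 v h4).elim
      · exact (h2 (f0 ▸ h4 ▸ hv)).elim
    · show App (Mem V) (cl V c) _ (cl V (ordN 1))
      rw [← f1, ← h3]
      exact hv

end Pool.Agent.Lib.MP_5d9fac_lc
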