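import Pool.Agent.Lib.MP_5d9fac_lc.BoolComb

/-!
A complete Boolean algebra with the countable chain condition satisfying a Boolean-valued form of
the forcing principle for sigma-linked orders of size at most `ℵ₁` and `ℵ₁` dense sets.
It is the regular open algebra of an explicit finite support iteration.
-/

namespace Pool.Agent.Lib.MP_5d9fac_lc

open Cardinal

universe u

/-! ### The regular open algebra of a preorder -/

/-- regular lower sets of a preorder -/
def RO (P : Type u) [Preorder P] : Type u := Heyting.Regular (LowerSet P)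

namespace RO

variable {P : Type u} [Preorder P]

noncomputable instance : CompleteBooleanAlgebra (RO P) :=
  { (inferInstance : BooleanAlgebra (Heyting.Regular (LowerSet P))),
    (Heyting.Regular.gi (α := LowerSet P)).liftCompleteLattice with }

/-- the underlying lower set -/
def opn (b : RO P) : LowerSet P := Heyting.Regular.val b

/-- the element given by a condition -/
def emb (p : P) : RO P := Heyting.Regular.toRegular (LowerSet.Iic p)

theorem opn_inj {a b : RO P} (h : opn a = opn b) : a = b := Heyting.Regular.coe_injective h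

theorem emb_le_iff {p : P} {b : RO P} : emb p ≤ b ↔ p ∈ opn b :=
  ((Heyting.Regular.gi (α := LowerSet P)).gc (LowerSet.Iic p) b).trans LowerSet.Iic_le

theorem emb_ne_bot (p : P) : emb p ≠ ⊥ := fun h =>
  LowerSet.notMem_bot (emb_le_iff.1 h.le)

theorem emb_mono {p q : P} (h : p ≤ q) : emb p ≤ emb q :=
  emb_le_iff.2 ((opn (emb q)).lower h (emb_le_iff.1 le_rfl))

theorem exists_emb_le {b : RO P} (hb : b ≠ ⊥) : ∃ p, emb p ≤ b := by
  by_contra hc
  push Not at hc
  apply hb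
  apply opn_inj
  refine le_bot_iff.1 fun p hp => ?_
  exact (hc p (emb_le_iff.2 hp)).elim

theorem compat {p q : P} (h : emb p ⊓ emb q ≠ ⊥) : ∃ r, r ≤ p ∧ r ≤ q := by
  by_contra hc
  apply h
  apply opn_inj
  have h1 : LowerSet.Iic p ⊓ LowerSet.Iic q = ⊥ :=
    le_bot_iff.1 fun r hr => (hc ⟨r, hr.1, hr.2⟩).elim
  show (LowerSet.Iic p)ᶜᶜ ⊓ (LowerSet.Iic q)ᶜᶜ = ⊥
  rw [← compl_compl_inf_distrib, h1, compl_bot, compl_top]

theorem le_of_dense {a b : RO P} (h : ∀ p, emb p ≤ a → ∃ r, r ≤ p ∧ emb r ≤ b) : a ≤ b := by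
  by_contra hab
  have h2 : a ⊓ bᶜ ≠ ⊥ := by
    intro h0
    apply hab
    rwa [← sdiff_eq, sdiff_eq_bot_iff] at h0
  obtain ⟨p, hp⟩ := exists_emb_le h2
  obtain ⟨r, hr, hb⟩ := h p (hp.trans inf_le_left)
  exact emb_ne_bot r (le_bot_iff.1
    ((le_inf hb ((emb_mono hr).trans (hp.trans inf_le_right))).trans inf_compl_eq_bot.le))

theorem exists_of_le_iSup {ι : Sort*} {f : ι → RO P} {p : P} (h : emb p ≤ ⨆ i, f i) :
    ∃ i r, r ≤ p ∧ emb r ≤ f i := by
  have h1 : ∃ i, emb p ⊓ f i ≠ ⊥ := by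
    by_contra hc
    push Not at hc
    apply emb_ne_bot p
    rw [← inf_eq_left.2 h, inf_iSup_eq]
    simp [hc]
  obtain ⟨i, hi⟩ := h1
  obtain ⟨q, hq⟩ := exists_emb_le hi
  obtain ⟨r, hr1, hr2⟩ := compat (p := p) (q := q) (by
    rw [inf_eq_right.2 (hq.trans inf_le_left)]
    exact emb_ne_bot q)
  exact ⟨i, r, hr1, (emb_mono hr2).trans (hq.trans inf_le_right)⟩

theorem exists_of_emb_le {p q : P} (h : emb p ≤ emb q) : ∃ r, r ≤ p ∧ r ≤ q :=
  compat (by rw [inf_eq_left.2 h]; exact emb_ne_bot p)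

theorem le_iSup_iff {T : Set P} {q : P} :
    emb q ≤ ⨆ s : T, emb s.1 ↔ ∀ q', q' ≤ q → ∃ r, r ≤ q' ∧ ∃ s ∈ T, r ≤ s := by
  constructor
  · intro h q' hq'
    obtain ⟨s, r, h1, h2⟩ := exists_of_le_iSup ((emb_mono hq').trans h)
    obtain ⟨r', h3, h4⟩ := exists_of_emb_le h2
    exact ⟨r', h3.trans h1, s, s.2, h4⟩
  · intro h
    refine le_of_dense fun p hp => ?_
    obtain ⟨q', h1, h2⟩ := exists_of_emb_le hp
    obtain ⟨r, h3, s, hs, h4⟩ := h q' h2
    exact ⟨r, h3.trans h1, (emb_mono h4).trans (le_iSup (fun s : T => emb s.1) ⟨s, hs⟩)⟩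

theorem exists_countable (hB : CCC (RO P)) (b : RO P) :
    ∃ T : Set P, T.Countable ∧ b = ⨆ s : T, emb s.1 := by
  obtain ⟨C, hC, hle⟩ := exists_countable_iSup hB fun p : {p // emb p ≤ b} => emb p.1
  refine ⟨Subtype.val '' C, hC.image _, le_antisymm ?_ (iSup_le ?_)⟩
  · refine le_trans (le_of_dense fun p hp => ⟨p, le_rfl, ?_⟩) (hle.trans (iSup_le fun s => ?_))
    · exact le_iSup (fun p : {p // emb p ≤ b} => emb p.1) ⟨p, hp⟩
    · exact le_iSup (fun s : Subtype.val '' C => emb s.1) ⟨s.1.1, s.1, s.2, rfl⟩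
  · rintro ⟨_, p, _, rfl⟩
    exact p.2

end RO

theorem countable_of_incompatible_nat {I J : Type u} (f : J → I → ℕ) (n : ℕ) :
    ∀ (A : Set J) (s : J → Finset I), (∀ j ∈ A, (s j).card ≤ n) →
      (∀ j ∈ A, ∀ k ∈ A, j ≠ k → ∃ i ∈ s j, i ∈ s k ∧ f j i ≠ f k i) → A.Countable := by
  classical
  induction n with
  | zero =>
    intro A s h1 h2
    refine Set.Subsingleton.countable fun j hj k hk => ?_
    by_contra hjk
    obtain ⟨i, hi, -⟩ := h2 j hj k hk hjk
    have := h1 j hj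
    rw [Nat.le_zero, Finset.card_eq_zero] at this
    simp [this] at hi
  | succ n ih =>
    intro A s h1 h2
    rcases A.eq_empty_or_nonempty with rfl | ⟨j₀, hj₀⟩
    · exact Set.countable_empty
    have h3 : A ⊆ {j₀} ∪ ⋃ i ∈ (s j₀ : Set I), ⋃ v : ℕ, {j ∈ A | i ∈ s j ∧ f j i = v} := by
      intro j hj
      by_cases h : j = j₀
      · exact Or.inl h
      · obtain ⟨i, hi, hi', -⟩ := h2 j hj j₀ hj₀ h
        exact Or.inr (Set.mem_biUnion hi' (Set.mem_iUnion.2 ⟨_, hj, hi, rfl⟩))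
    refine Set.Countable.mono h3 ((Set.countable_singleton _).union
      (Set.Countable.biUnion (s j₀).countable_toSet fun i _ => Set.countable_iUnion fun v => ?_))
    refine ih _ (fun j => (s j).erase i) (fun j hj => ?_) fun j hj k hk hjk => ?_
    · rw [Finset.card_erase_of_mem hj.2.1]
      have := h1 j hj.1
      omega
    · obtain ⟨i', h4, h5, h6⟩ := h2 j hj.1 k hk.1 hjk
      have h7 : i' ≠ i := by
        rintro rfl
        exact h6 (hj.2.2.trans hk.2.2.symm)
      exact ⟨i', Finset.mem_erase.2 ⟨h7, h4⟩, Finset.mem_erase.2 ⟨h7, h5⟩, h6⟩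

/-! ### The iteration -/

namespace Iter

/-- finitely supported conditions -/
structure Cnd (L K : Type u) : Type u where
  fn : L → Option K
  fin : {δ | fn δ ≠ none}.Finite

variable {L K : Type u}

/-- `q` forces the generic filter to meet `T` -/
def Force (Le : Cnd L K → Cnd L K → Prop) (q : Cnd L K) (T : Set (Cnd L K)) : Prop :=
  ∀ q', Le q' q → ∃ r, Le r q' ∧ ∃ s ∈ T, Le r s

/-- the name `T` is forced to be a preorder linked by the colouring `c` -/
def Valid (Le : Cnd L K → Cnd L K → Prop) (c : K → ℕ) (T : K → K → Set (Cnd L K)) : Prop :=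
  (∀ i q, Force Le q (T i i)) ∧
  (∀ i j k q, Force Le q (T i j) → Force Le q (T j k) → Force Le q (T i k)) ∧
  ∀ i j q, c i = c j → ∃ r k, Le r q ∧ Force Le r (T k i) ∧ Force Le r (T k j)

variable [LinearOrder L] [WellFoundedLT L] (c : L → K → ℕ) (T : L → K → K → Set (Cnd L K))

/-- the order at one coordinate -/
def Step : L → Cnd L K → Cnd L K → Prop :=
  WellFoundedLT.fix fun δ ih q p =>
    Valid (fun q p => ∀ γ (h : γ < δ), ih γ h q p) (c δ) (T δ) →
      ∀ j, p.fn δ = some j → ∃ i, q.fn δ = some i ∧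
        Force (fun q p => ∀ γ (h : γ < δ), ih γ h q p) q (T δ i j)

/-- the order below a stage -/
def Le (δ : L) (q p : Cnd L K) : Prop := ∀ γ, γ < δ → Step c T γ q p

theorem step_iff (δ : L) (q p : Cnd L K) : Step c T δ q p ↔
    (Valid (Le c T δ) (c δ) (T δ) → ∀ j, p.fn δ = some j → ∃ i, q.fn δ = some i ∧
      Force (Le c T δ) q (T δ i j)) := by
  conv_lhs => rw [Step, WellFoundedLT.fix_eq]
  rfl

variable {c T}

theorem step_of_eq {δ : L} {q p : Cnd L K} (h : ∀ j, p.fn δ = some j → q.fn δ = some j) :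
    Step c T δ q p :=
  (step_iff c T δ q p).2 fun hv j hj => ⟨j, h j hj, hv.1 j q⟩

theorem step_trans (δ : L) : ∀ r q p : Cnd L K, (∀ γ, γ ≤ δ → Step c T γ r q) →
    Step c T δ q p → Step c T δ r p := by
  induction δ using WellFoundedLT.induction with
  | ind δ ih =>
    intro r q p h1 h2
    have h3 := h1 δ le_rfl
    rw [step_iff] at h2 h3 ⊢
    intro hv j hj
    obtain ⟨i, hi, f1⟩ := h2 hv j hj
    obtain ⟨k, hk, f2⟩ := h3 hv i hi
    refine ⟨k, hk, hv.2.1 k i j r f2 fun q' hq' => f1 q' fun γ hγ => ?_⟩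
    exact ih γ hγ q' r q (fun γ' hγ' => hq' γ' (hγ'.trans_lt hγ)) (h1 γ hγ.le)

theorem Le.trans {δ : L} {r q p : Cnd L K} (h1 : Le c T δ r q) (h2 : Le c T δ q p) :
    Le c T δ r p := fun γ hγ =>
  step_trans γ r q p (fun γ' hγ' => h1 γ' (hγ'.trans_lt hγ)) (h2 γ hγ)

theorem Le.of_eq {δ : L} {q p : Cnd L K} (h : ∀ γ, γ < δ → q.fn γ = p.fn γ) : Le c T δ q p :=
  fun γ hγ => step_of_eq fun _ hj => (h γ hγ).trans hj

theorem Force.mono {δ : L} {r q : Cnd L K} {S : Set (Cnd L K)} (h : Force (Le c T δ) q S)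
    (hr : Le c T δ r q) : Force (Le c T δ) r S := fun q' hq' => h q' (hq'.trans hr)

/-- the conditions with the full order -/
def Pos (_c : L → K → ℕ) (_T : L → K → K → Set (Cnd L K)) : Type u := Cnd L K

instance instPre : Preorder (Pos c T) where
  le q p := ∀ δ, Step c T δ q p
  le_refl _ _ := step_of_eq fun _ h => h
  le_trans r q p h1 h2 δ := step_trans δ r q p (fun γ _ => h1 γ) (h2 δ)

theorem Pos.le_def {q p : Pos c T} : q ≤ p ↔ ∀ δ, Step c T δ q p := Iff.rfl

theorem Pos.toLe {q p : Pos c T} (h : q ≤ p) (δ : L) : Le c T δ q p := fun γ _ => h γ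

open Classical in
/-- `r` below `δ`, the value `o` at `δ` and `p` above `δ` -/
noncomputable def glue (δ : L) (r : Cnd L K) (o : Option K) (p : Cnd L K) : Cnd L K where
  fn γ := if γ < δ then r.fn γ else if γ = δ then o else p.fn γ
  fin := by
    refine ((r.fin.union p.fin).union (Set.finite_singleton δ)).subset fun γ hγ => ?_
    by_cases h1 : γ < δ
    · simp only [h1, if_true, Set.mem_ofPred_eq] at hγ
      exact Or.inl (Or.inl hγ)
    · by_cases h2 : γ = δ
      · exact Or.inr h2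
      · simp only [h1, h2, if_false, Set.mem_ofPred_eq] at hγ
        exact Or.inl (Or.inr hγ)

omit [WellFoundedLT L] in
theorem glue_lt {δ γ : L} (r : Cnd L K) (o : Option K) (p : Cnd L K) (h : γ < δ) :
    (glue δ r o p).fn γ = r.fn γ := if_pos h

omit [WellFoundedLT L] in
theorem glue_self (δ : L) (r : Cnd L K) (o : Option K) (p : Cnd L K) :
    (glue δ r o p).fn δ = o := by simp [glue]

omit [WellFoundedLT L] in
theorem glue_gt {δ γ : L} (r : Cnd L K) (o : Option K) (p : Cnd L K) (h : δ < γ) :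
    (glue δ r o p).fn γ = p.fn γ := by simp [glue, h.not_gt, h.ne']

theorem glue_Le (δ : L) (r : Cnd L K) (o : Option K) (p : Cnd L K) :
    Le c T δ (glue δ r o p) r := Le.of_eq fun _ h => glue_lt r o p h

theorem le_of_parts {δ : L} {q p : Pos c T} (h1 : Le c T δ q p) (h2 : Step c T δ q p)
    (h3 : ∀ γ, δ < γ → ∀ j, p.fn γ = some j → q.fn γ = some j) : q ≤ p := by
  intro γ
  rcases lt_trichotomy γ δ with h | h | h
  · exact h1 γ h
  · exact h ▸ h2
  · exact step_of_eq (h3 γ h)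

theorem glue_le {δ : L} {r : Cnd L K} {p : Pos c T} (h : Le c T δ r p) :
    @LE.le (Pos c T) _ (glue δ r (p.fn δ) p) p :=
  le_of_parts ((glue_Le δ r _ p).trans h)
    (step_of_eq fun _ hj => (glue_self _ _ _ _).trans hj)
    fun _ hγ _ hj => (glue_gt _ _ _ hγ).trans hj

theorem compat_of_colour (s : Finset L) : ∀ p q : Pos c T,
    (∀ δ, δ ∉ s → p.fn δ = none ∧ q.fn δ = none) →
    (∀ δ i j, p.fn δ = some i → q.fn δ = some j → c δ i = c δ j) → ∃ r, r ≤ p ∧ r ≤ q := by
  classical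
  induction s using Finset.induction_on_max with
  | empty =>
    intro p q h _
    refine ⟨p, le_rfl, fun δ => step_of_eq fun j hj => ?_⟩
    rw [(h δ (by simp)).2] at hj
    cases hj
  | insert δ s hδ ih =>
    intro p q h1 h2
    have hgt : ∀ γ, δ < γ → p.fn γ = none ∧ q.fn γ = none := fun γ hγ => h1 γ (by
      rw [Finset.mem_insert]
      rintro (h | h)
      · exact hγ.ne' h
      · exact (hδ γ h).not_gt hγ)
    obtain ⟨r, hrp, hrq⟩ := ih (glue δ p none p) (glue δ q none q) (by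
      intro γ hγ
      rcases lt_trichotomy γ δ with h | h | h
      · rw [glue_lt _ _ _ h, glue_lt _ _ _ h]
        exact h1 γ (by simp [hγ, h.ne])
      · rw [h, glue_self, glue_self]
        exact ⟨rfl, rfl⟩
      · rw [glue_gt _ _ _ h, glue_gt _ _ _ h]
        exact hgt γ h) (by
      intro γ i j hi hj
      rcases lt_trichotomy γ δ with h | h | h
      · rw [glue_lt _ _ _ h] at hi hj
        exact h2 γ i j hi hj
      · rw [h, glue_self] at hi
        cases hi
      · rw [glue_gt _ _ _ h] at hi hj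
        exact h2 γ i j hi hj)
    have hrp' : Le c T δ r p := (Pos.toLe hrp δ).trans (glue_Le δ p none p)
    have hrq' : Le c T δ r q := (Pos.toLe hrq δ).trans (glue_Le δ q none q)
    have key : ∃ r' o, Le c T δ r' r ∧ Step c T δ (glue δ r' o r') p ∧
        Step c T δ (glue δ r' o r') q := by
      by_cases hv : Valid (Le c T δ) (c δ) (T δ)
      · rcases hp : p.fn δ with _ | i
        · exact ⟨r, q.fn δ, Le.of_eq fun _ _ => rfl, step_of_eq fun j hj => by simp [hp] at hj,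
            step_of_eq fun j hj => (glue_self _ _ _ _).trans hj⟩
        · rcases hq : q.fn δ with _ | j
          · exact ⟨r, p.fn δ, Le.of_eq fun _ _ => rfl,
              step_of_eq fun j hj => (glue_self _ _ _ _).trans hj,
              step_of_eq fun j hj => by simp [hq] at hj⟩
          · obtain ⟨r', k, h3, h4, h5⟩ := hv.2.2 i j r (h2 δ i j hp hq)
            refine ⟨r', some k, h3, (step_iff _ _ _ _ _).2 fun _ i' hi' => ?_,
              (step_iff _ _ _ _ _).2 fun _ j' hj' => ?_⟩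
            · obtain rfl : i = i' := by simpa [hp] using hi'
              exact ⟨k, glue_self _ _ _ _, h4.mono (glue_Le _ _ _ _)⟩
            · obtain rfl : j = j' := by simpa [hq] using hj'
              exact ⟨k, glue_self _ _ _ _, h5.mono (glue_Le _ _ _ _)⟩
      · exact ⟨r, none, Le.of_eq fun _ _ => rfl, (step_iff _ _ _ _ _).2 fun h => (hv h).elim,
          (step_iff _ _ _ _ _).2 fun h => (hv h).elim⟩
    obtain ⟨r', o, h3, h4, h5⟩ := key
    refine ⟨glue δ r' o r', le_of_parts (((glue_Le _ _ _ _).trans h3).trans hrp') h4 ?_,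
      le_of_parts (((glue_Le _ _ _ _).trans h3).trans hrq') h5 ?_⟩
    · intro γ hγ j hj
      rw [(hgt γ hγ).1] at hj
      cases hj
    · intro γ hγ j hj
      rw [(hgt γ hγ).2] at hj
      cases hj

theorem ccc : CCC (RO (Pos c T)) := by
  classical
  intro J b hb
  have h1 : ∀ j, ∃ p : Pos c T, b j ≠ ⊥ → RO.emb p ≤ b j := by
    intro j
    by_cases h : b j = ⊥
    · exact ⟨⟨fun _ => none, by simp⟩, fun h' => (h' h).elim⟩
    · obtain ⟨p, h2⟩ := RO.exists_emb_le h
      exact ⟨p, fun _ => h2⟩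
  choose p hp using h1
  have h2 : {j | b j ≠ ⊥} ⊆ ⋃ n : ℕ, {j | b j ≠ ⊥ ∧ (p j).fin.toFinset.card ≤ n} := fun j hj =>
    Set.mem_iUnion.2 ⟨_, hj, le_rfl⟩
  refine Set.Countable.mono h2 (Set.countable_iUnion fun n =>
    countable_of_incompatible_nat (fun j δ => ((p j).fn δ).elim 0 (c δ)) n _
      (fun j => (p j).fin.toFinset) (fun j hj => hj.2) fun j hj k hk hjk => ?_)
  by_contra hc
  push Not at hc
  obtain ⟨r, h3, h4⟩ := compat_of_colour ((p j).fin.toFinset ∪ (p k).fin.toFinset) (p j) (p k)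
    (fun δ hδ => by simpa using hδ) (fun δ i i' hi hi' => by
      have := hc δ (by simp [hi]) (by simp [hi'])
      simpa [hi, hi'] using this)
  exact RO.emb_ne_bot r (le_bot_iff.1 ((le_inf ((RO.emb_mono h3).trans (hp j hj.1))
    ((RO.emb_mono h4).trans (hp k hk.1))).trans (hb j k hjk).le))

theorem force_iff {β : L} {S : Set (Pos c T)} (hS : ∀ s ∈ S, ∀ δ, β ≤ δ → s.fn δ = none)
    (q : Pos c T) : Force (Le c T β) q S ↔ RO.emb q ≤ ⨆ s : S, RO.emb s.1 := by
  rw [RO.le_iSup_iff]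
  constructor
  · intro h q' hq'
    obtain ⟨r, h1, s, hs, h2⟩ := h q' (Pos.toLe hq' β)
    refine ⟨glue β r (q'.fn β) q', glue_le h1, s, hs,
      le_of_parts ((glue_Le _ _ _ _).trans h2) (step_of_eq fun j hj => ?_) fun γ hγ j hj => ?_⟩
    · rw [hS s hs β le_rfl] at hj
      cases hj
    · rw [hS s hs γ hγ.le] at hj
      cases hj
  · intro h q' hq'
    obtain ⟨r, h1, s, hs, h2⟩ := h _ (glue_le hq')
    exact ⟨r, (Pos.toLe h1 β).trans (glue_Le _ _ _ _), s, hs, Pos.toLe h2 β⟩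

theorem exists_generic [Nonempty K] {β : L} (le : K → K → RO (Pos c T))
    (hT : ∀ i j, le i j = ⨆ s : (T β i j : Set (Pos c T)), RO.emb (P := Pos c T) s.1)
    (hTs : ∀ i j, ∀ s ∈ T β i j, ∀ δ, β ≤ δ → s.fn δ = none)
    (h1 : ∀ i, le i i = ⊤) (h2 : ∀ i j k, le i j ⊓ le j k ≤ le i k)
    (h3 : ∀ i j, c β i = c β j → ⊤ ≤ ⨆ k, le k i ⊓ le k j) :
    ∃ g : K → RO (Pos c T), (∀ i j, g i ⊓ g j ≤ ⨆ k, g k ⊓ le k i ⊓ le k j) ∧
      ∀ S : K → Set (Pos c T), (∀ i, ∀ s ∈ S i, ∀ δ, β ≤ δ → s.fn δ = none) →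
        (∀ i, ⊤ ≤ ⨆ k, (⨆ s : S k, RO.emb s.1) ⊓ le k i) →
        ⊤ ≤ ⨆ k, (⨆ s : S k, RO.emb s.1) ⊓ g k := by
  have hF : ∀ i j (q : Pos c T), Force (Le c T β) q (T β i j) ↔ RO.emb q ≤ le i j := by
    intro i j q
    rw [hT]
    exact force_iff (hTs i j) q
  have hv : Valid (Le c T β) (c β) (T β) := by
    refine ⟨fun i q => (hF i i q).2 (by rw [h1]; exact le_top), fun i j k q a b =>
      (hF i k q).2 ((le_inf ((hF i j q).1 a) ((hF j k q).1 b)).trans (h2 i j k)),
      fun i j q hij => ?_⟩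
    obtain ⟨k, r, h4, h5⟩ := RO.exists_of_le_iSup (P := Pos c T) (p := q)
      (le_top.trans (h3 i j hij))
    exact ⟨r, k, Pos.toLe h4 β, (hF k i r).2 (h5.trans inf_le_left),
      (hF k j r).2 (h5.trans inf_le_right)⟩
  let g : K → RO (Pos c T) := fun i => ⨆ p : {p : Pos c T | p.fn β = some i}, RO.emb p.1
  have hg : ∀ (p : Pos c T) i, p.fn β = some i → RO.emb p ≤ g i := fun p i h =>
    le_iSup (fun p : {p : Pos c T | p.fn β = some i} => RO.emb p.1) ⟨p, h⟩
  refine ⟨g, fun i j => RO.le_of_dense fun q hq => ?_, fun S hS hd => RO.le_of_dense fun q _ => ?_⟩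
  · obtain ⟨r, h4, p, hp, h5⟩ := RO.le_iSup_iff.1 (hq.trans inf_le_left) q le_rfl
    obtain ⟨r', h6, p', hp', h7⟩ := RO.le_iSup_iff.1 (hq.trans inf_le_right) r h4
    obtain ⟨k, hk, f1⟩ := (step_iff _ _ _ _ _).1 ((h6.trans h5) β) hv i hp
    obtain ⟨k', hk', f2⟩ := (step_iff _ _ _ _ _).1 (h7 β) hv j hp'
    obtain rfl : k = k' := by simpa [hk] using hk'
    exact ⟨r', h6.trans h4, le_iSup_of_le k
      (le_inf (le_inf (hg r' k hk) ((hF k i r').1 f1)) ((hF k j r').1 f2))⟩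
  · obtain ⟨k, r, h4, h5⟩ := RO.exists_of_le_iSup (p := q)
      (le_top.trans (hd ((q.fn β).getD (Classical.arbitrary K))))
    refine ⟨glue β r (some k) q, le_of_parts ((glue_Le _ _ _ _).trans (Pos.toLe h4 β))
      ((step_iff _ _ _ _ _).2 fun _ j hj => ⟨k, glue_self _ _ _ _, ?_⟩)
      fun _ hγ _ hj => (glue_gt _ _ _ hγ).trans hj, le_iSup_of_le k (le_inf ?_ ?_)⟩
    · have h6 := h5.trans inf_le_right
      rw [hj, Option.getD_some] at h6
      exact ((hF k j r).2 h6).mono (glue_Le _ _ _ _)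
    · exact (force_iff (hS k) _).1
        (((force_iff (hS k) r).2 (h5.trans inf_le_left)).mono (glue_Le _ _ _ _))
    · exact hg _ k (glue_self _ _ _ _)

omit [LinearOrder L] [WellFoundedLT L] in
theorem mk_Cnd_le [Infinite (L × K)] : #(Cnd L K) ≤ #(L × K) := by
  have hfin : ∀ p : Cnd L K, {x : L × K | p.fn x.1 = some x.2}.Finite := by
    intro p
    refine Set.Finite.of_finite_image (f := Prod.fst) (p.fin.subset ?_) ?_
    · rintro _ ⟨x, hx, rfl⟩
      simp only [Set.mem_ofPred_eq] at hx ⊢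
      simp [hx]
    · intro x hx y hy hxy
      simp only [Set.mem_ofPred_eq] at hx hy
      rw [hxy, hy] at hx
      exact Prod.ext hxy (Option.some.inj hx).symm
  have hinj : Function.Injective fun p : Cnd L K => (hfin p).toFinset := by
    rintro ⟨f, hf⟩ ⟨g, hg⟩ h
    congr
    funext δ
    refine Option.ext fun k => ?_
    simpa using Finset.ext_iff.1 h (δ, k)
  exact (mk_le_of_injective hinj).trans (mk_finset_of_infinite _).le

end Iter

/-- Boolean-valued forcing principle for sigma-linked orders of size at most `ℵ₁`. -/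
def LinkedMA (B : Type) [CompleteBooleanAlgebra B] : Prop :=
  ∀ (I J : Type) [Nonempty I], #I ≤ ℵ₁ → #J ≤ ℵ₁ → ∀ (c : I → ℕ) (le : I → I → B)
    (D : J → I → B), (∀ i, le i i = ⊤) → (∀ i j k, le i j ⊓ le j k ≤ le i k) →
    (∀ i j, c i = c j → ⊤ ≤ ⨆ k, le k i ⊓ le k j) → (∀ j i, ⊤ ≤ ⨆ k, D j k ⊓ le k i) →
    ∃ g : I → B, (∀ i j, g i ⊓ g j ≤ ⨆ k, g k ⊓ le k i ⊓ le k j) ∧
      ∀ j, ⊤ ≤ ⨆ k, D j k ⊓ g k

theorem exists_linkedMA : ∃ (B : Type) (_ : CompleteBooleanAlgebra B),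
    (⊤ : B) ≠ ⊥ ∧ CCC B ∧ LinkedMA B := by
  classical
  let K : Type := (ℵ₁ : Cardinal.{0}).ord.ToType
  let κ : Cardinal.{0} := 2 ^ (ℵ₁ : Cardinal.{0})
  let L : Type := κ.ord.ToType
  have hK : #K = ℵ₁ := mk_ord_toType _
  have hL : #L = κ := mk_ord_toType _
  have h01 : (ℵ₀ : Cardinal.{0}) ≤ ℵ₁ := aleph0_lt_aleph_one.le
  have h1κ : ℵ₁ < κ := cantor _
  have h0κ : ℵ₀ ≤ κ := h01.trans h1κ.le
  have hcof : ℵ₁ < κ.ord.cof := lt_cof_ord_power h01 one_lt_two
  have : Infinite K := infinite_iff.2 (hK.symm ▸ h01)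
  have : Infinite L := infinite_iff.2 (hL.symm ▸ h0κ)
  have hpow : ∀ a b : Cardinal.{0}, a ≤ κ → b ≤ ℵ₁ → a ^ b ≤ κ := by
    intro a b ha hb
    refine (power_le_power_right ha).trans ?_
    rw [← power_mul]
    exact power_le_power_left two_ne_zero (mul_le_of_le h01 le_rfl hb)
  let X : Type := (K → ℕ) × (K → K → ℕ → Option (Iter.Cnd L K))
  have hX : #X ≤ κ := by
    have hC : #(Option (Iter.Cnd L K)) ≤ κ := by
      rw [mk_option]
      refine add_le_of_le h0κ (Iter.mk_Cnd_le.trans ?_) (one_le_aleph0.trans h0κ)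
      rw [mk_prod, lift_id, lift_id, hL, hK]
      exact mul_le_of_le h0κ le_rfl h1κ.le
    rw [mk_prod, lift_id, lift_id]
    refine mul_le_of_le h0κ ?_ ?_
    · rw [← power_def]
      exact hpow _ _ (mk_nat.le.trans h0κ) hK.le
    · rw [← power_def, ← power_def, ← power_def]
      exact hpow _ _ (hpow _ _ (hpow _ _ hC (mk_nat.le.trans h01)) hK.le) hK.le
  obtain ⟨e⟩ : Nonempty (L ≃ X × L) := by
    rw [← Cardinal.eq, mk_prod, lift_id, lift_id, hL]
    exact (mul_eq_right h0κ hX (mk_ne_zero X)).symm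
  let c : L → K → ℕ := fun δ => (e δ).1.1
  let T : L → K → K → Set (Iter.Cnd L K) := fun δ i j => {s | ∃ n, (e δ).1.2 i j n = some s}
  have hccc : CCC (RO (Iter.Pos c T)) := Iter.ccc
  refine ⟨RO (Iter.Pos c T), inferInstance, fun h => RO.emb_ne_bot (P := Iter.Pos c T)
    ⟨fun _ => none, by simp⟩ (le_bot_iff.1 (h ▸ le_top)), hccc, ?_⟩
  intro I J _ hI hJ col le D h1 h2 h3 h4
  obtain ⟨σ, hσ⟩ : ∃ σ : K → I, Function.Surjective σ := by
    rw [← hK] at hI
    obtain ⟨f⟩ := (le_def _ _).1 hI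
    exact ⟨Function.invFun f, Function.invFun_surjective f.injective⟩
  choose A hAc hA using RO.exists_countable hccc
  have henum : ∀ b, ∃ t : ℕ → Option (Iter.Cnd L K), ∀ s, s ∈ A b ↔ ∃ n, t n = some s := by
    intro b
    rcases (A b).eq_empty_or_nonempty with h | h
    · exact ⟨fun _ => none, fun s => by simp [h]⟩
    · obtain ⟨f, hf⟩ := (hAc b).exists_eq_range h
      refine ⟨fun n => some (f n), fun s => ?_⟩
      rw [hf]
      exact exists_congr fun n => ⟨fun h => congrArg some h, fun h => Option.some.inj h⟩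
  choose t ht using henum
  have hbd : ∃ β : L, (e β).1 = (col ∘ σ, fun i j => t (le (σ i) (σ j))) ∧
      (∀ i j, ∀ s ∈ A (le i j), ∀ δ, β ≤ δ → s.fn δ = none) ∧
      ∀ j i, ∀ s ∈ A (D j i), ∀ δ, β ≤ δ → s.fn δ = none := by
    let bb : (I × I) ⊕ (J × I) → RO (Iter.Pos c T) :=
      Sum.elim (fun x => le x.1 x.2) fun x => D x.1 x.2
    let Z : Set L := ⋃ x, ⋃ s ∈ A (bb x), {δ | s.fn δ ≠ none}
    have hZ : #Z ≤ ℵ₁ := by
      refine (mk_iUnion_le _).trans (mul_le_of_le h01 ?_ (ciSup_le' fun x => le_trans ?_ h01))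
      · rw [mk_sum, mk_prod, mk_prod]
        simp only [lift_id]
        exact add_le_of_le h01 (mul_le_of_le h01 hI hI) (mul_le_of_le h01 hJ hI)
      · exact le_aleph0_iff_set_countable.2 ((hAc _).biUnion fun s _ => s.fin.countable)
    have hZ2 : #(⋃ δ : Z, Set.Iic δ.1) < κ := by
      refine mk_iUnion_lt h0κ _ (hZ.trans_lt hcof) fun δ => ?_
      rw [← Set.Iio_insert]
      refine mk_insert_le.trans_lt (add_lt_of_lt h0κ ?_ (one_lt_aleph0.trans_le h0κ))
      have : ∀ i : κ.ord.ToType, #(Set.Iio i) < κ := fun i => by simpa using mk_Iio_lt i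
      exact this δ.1
    have hinj : Function.Injective fun l : L =>
        e.symm ((col ∘ σ, fun i j => t (le (σ i) (σ j))), l) := fun l l' h => by simpa using h
    obtain ⟨_, ⟨l, rfl⟩, hl⟩ := exists_not_mem_of_lt
      (hZ2.trans_eq ((mk_range_eq _ hinj).trans hL).symm)
    have key : ∀ x, ∀ s ∈ A (bb x), ∀ δ,
        e.symm ((col ∘ σ, fun i j => t (le (σ i) (σ j))), l) ≤ δ → s.fn δ = none := by
      intro x s hs δ hδ
      by_contra hne
      exact hl (Set.mem_iUnion.2 ⟨⟨δ, Set.mem_iUnion.2 ⟨x, Set.mem_biUnion hs hne⟩⟩, hδ⟩)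
    exact ⟨_, by simp, fun i j => key (Sum.inl (i, j)), fun j i => key (Sum.inr (j, i))⟩
  obtain ⟨β, hβ, hs1, hs2⟩ := hbd
  have hTβ : ∀ i j, T β i j = A (le (σ i) (σ j)) := by
    intro i j
    ext s
    simp only [T, hβ, Set.mem_ofPred_eq]
    exact (ht _ s).symm
  have hsup : ∀ f : I → RO (Iter.Pos c T), ⨆ k, f k = ⨆ k, f (σ k) := fun f =>
    (hσ.iSup_comp f).symm
  obtain ⟨g, hg1, hg2⟩ := Iter.exists_generic (c := c) (T := T) (β := β)
    (fun i j => le (σ i) (σ j)) (fun i j => by rw [hTβ]; exact hA _)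
    (fun i j => by rw [hTβ]; exact hs1 _ _) (fun i => h1 _) (fun i j k => h2 _ _ _)
    (fun i j hij => by
      have := h3 (σ i) (σ j) (by simpa [c, hβ] using hij)
      rwa [hsup] at this)
  refine ⟨fun i => ⨆ x : {x // σ x = i}, g x.1, fun i j => ?_, fun j => ?_⟩
  · rw [iSup_inf_iSup]
    refine iSup_le fun ⟨⟨x, hx⟩, ⟨y, hy⟩⟩ => (hg1 x y).trans (iSup_le fun k => ?_)
    subst hx hy
    refine le_iSup_of_le (σ k) (inf_le_inf_right _ (inf_le_inf_right _ ?_))
    exact le_iSup (fun x : {x // σ x = σ k} => g x.1) ⟨k, rfl⟩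
  · have := hg2 (fun k => A (D j (σ k))) (fun k => hs2 j _) (fun i => by
      have := h4 j (σ i)
      rw [hsup] at this
      simpa only [← hA] using this)
    simp only [← hA] at this
    refine this.trans (iSup_le fun k => le_iSup_of_le (σ k) (inf_le_inf_left _ ?_))
    exact le_iSup (fun x : {x // σ x = σ k} => g x.1) ⟨k, rfl⟩

end Pool.Agent.Lib.MP_5d9fac_lc
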